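import Pool.Agent.H321R3.PC.Block
import Pool.Agent.H332B.Fin

/-! The pair sum of a long block against a general test function which is nonnegative beyond `1`. -/

open Complex Filter Topology Set MeasureTheory
open scoped BigOperators ComplexConjugate

namespace W201FW

open H370 H370.A2 H370.A3 H370.AS H295SI H321PC

/-- the pair sum against a Lipschitz function of bandwidth less than one -/
theorem det_psi (hRH : RiemannHypothesis) (μ ε : ℝ) (hμ : 0 < μ) (hμ1 : μ < 1) (hε : 0 < ε)
    (ψ : ℝ → ℝ) (K : ℝ) (hlip : ∀ x y, |ψ x - ψ y| ≤ K * |x - y|)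
    (hz : ∀ x, μ ≤ |x| → ψ x = 0) :
    ∃ T0 : ℝ, 10 ≤ T0 ∧ ∀ T : ℝ, T0 ≤ T →
      |(∫ α in (-μ)..μ, ψ α * JN riemannZeta (T + 1) (2 * T - 1) (α * Real.log T)) -
        ((2 * T - 1 - (T + 1)) * Real.log T / (2 * Real.pi)) *
          (ψ 0 + ∫ α in (-μ)..μ, |α| * ψ α)| ≤
      ε * ((2 * T - 1 - (T + 1)) * Real.log T / (2 * Real.pi)) := by
  have hK : 0 ≤ K := by
    have h1 := hlip 1 0
    have h2 := abs_nonneg (ψ 1 - ψ 0)
    simp at h1
    linarith
  have hψc : Continuous ψ := by
    have : LipschitzWith K.toNNReal ψ := by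
      refine LipschitzWith.of_dist_le_mul fun x y => ?_
      rw [Real.dist_eq, Real.dist_eq, Real.coe_toNNReal _ hK]
      exact hlip x y
    exact this.continuous
  set φ : ℝ → ℝ := fun β => μ * ((ψ (μ * β) + ψ (-(μ * β))) / 2) with hφ
  set K2 : ℝ := K * μ ^ 2 + 1 with hK2
  have hK20 : 0 < K2 := by positivity
  have hφlip : ∀ x y, |φ x - φ y| ≤ (K * μ ^ 2) * |x - y| := by
    intro x y
    have h1 := hlip (μ * x) (μ * y)
    have h2 := hlip (-(μ * x)) (-(μ * y))
    have e1 : |μ * x - μ * y| = μ * |x - y| := by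
      rw [← mul_sub, abs_mul, abs_of_pos hμ]
    have e2 : |-(μ * x) - -(μ * y)| = μ * |x - y| := by
      rw [neg_sub_neg, ← mul_sub, abs_mul, abs_of_pos hμ, abs_sub_comm]
    rw [e1] at h1
    rw [e2] at h2
    have e3 : φ x - φ y = μ / 2 * ((ψ (μ * x) - ψ (μ * y)) + (ψ (-(μ * x)) - ψ (-(μ * y)))) := by
      simp only [hφ]; ring
    rw [e3, abs_mul, abs_of_pos (by positivity : 0 < μ / 2)]
    calc μ / 2 * |(ψ (μ * x) - ψ (μ * y)) + (ψ (-(μ * x)) - ψ (-(μ * y)))| ≤
        μ / 2 * (|ψ (μ * x) - ψ (μ * y)| + |ψ (-(μ * x)) - ψ (-(μ * y))|) := by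
          gcongr; exact abs_add_le _ _
      _ ≤ μ / 2 * (K * (μ * |x - y|) + K * (μ * |x - y|)) := by gcongr
      _ = _ := by ring
  have hφe : ∀ x, φ (-x) = φ x := by
    intro x
    simp only [hφ]
    rw [mul_neg, neg_neg]
    ring
  have hφz : ∀ x, 1 ≤ |x| → φ x = 0 := by
    intro x hx
    simp only [hφ]
    have h1 : μ ≤ |μ * x| := by
      rw [abs_mul, abs_of_pos hμ]
      nlinarith
    rw [hz _ h1, hz (-(μ * x)) (by rw [abs_neg]; exact h1)]
    ring
  have hc1 := conv_add (by positivity) (by rw [hK2]; linarith : K * μ ^ 2 ≤ K2) hK20 hφlip hφe hφz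
  have hc2 : Conv (fun β => (fun _ => (0 : ℝ)) β + K2 * hatf β) :=
    conv_add (K := 0) le_rfl hK20.le hK20 (by intro x y; simp) (by intro x; rfl) (by intro x _; rfl)
  set R1 : ℝ → ℝ := fun β => φ β + K2 * hatf β with hR1
  set R2 : ℝ → ℝ := fun β => (fun _ => (0 : ℝ)) β + K2 * hatf β with hR2
  obtain ⟨T1, hT1, h1⟩ := det_pair hRH hc1 μ (ε / 2) hμ hμ1 (by positivity)
  obtain ⟨T2, hT2, h2⟩ := det_pair hRH hc2 μ (ε / 2) hμ hμ1 (by positivity)
  refine ⟨max T1 T2, hT1.trans (le_max_left _ _), fun T hT => ?_⟩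
  have hTT1 : T1 ≤ T := (le_max_left _ _).trans hT
  have hTT2 : T2 ≤ T := (le_max_right _ _).trans hT
  have hT10 : 10 ≤ T := hT1.trans hTT1
  have hTpos : 0 < T := by linarith
  have hLpos : 0 < Real.log T := Real.log_pos (by linarith)
  -- the constants
  have hconst : cR R1 μ - cR R2 μ = ψ 0 + ∫ α in (-μ)..μ, |α| * ψ α := by
    have hφc : Continuous φ := by simp only [hφ]; fun_prop
    have hhc : Continuous hatf := by unfold hatf; fun_prop
    have e1 : ∫ α in (0 : ℝ)..1, α * R1 α = (∫ α in (0 : ℝ)..1, α * φ α) +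
        ∫ α in (0 : ℝ)..1, α * (K2 * hatf α) := by
      have q1 : Continuous fun α : ℝ => α * φ α := continuous_id.mul hφc
      have q2 : Continuous fun α : ℝ => α * (K2 * hatf α) :=
        continuous_id.mul (continuous_const.mul hhc)
      rw [← intervalIntegral.integral_add (q1.intervalIntegrable _ _)
        (q2.intervalIntegrable _ _)]
      refine intervalIntegral.integral_congr fun α _ => ?_
      simp only [hR1]
      ring
    have e2 : ∫ α in (0 : ℝ)..1, α * R2 α = ∫ α in (0 : ℝ)..1, α * (K2 * hatf α) := by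
      refine intervalIntegral.integral_congr fun α _ => ?_
      simp only [hR2]
      ring
    have e3 : ∫ α in (-μ)..μ, |α| * ψ α = 2 * μ * ∫ α in (0 : ℝ)..1, α * φ α := by
      have h3 := int_even hψc continuous_abs (fun x => abs_neg x) μ
      have h4 : ∫ α in (-μ)..μ, |α| * ψ α = ∫ α in (-μ)..μ, ψ α * |α| :=
        intervalIntegral.integral_congr fun α _ => mul_comm _ _
      rw [h4, h3, mul_assoc, ← intervalIntegral.integral_const_mul (μ : ℝ)]
      congr 1
      refine intervalIntegral.integral_congr fun β hβ => ?_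
      rw [Set.uIcc_of_le zero_le_one] at hβ
      simp only [hφ]
      rw [abs_mul, abs_of_pos hμ, abs_of_nonneg hβ.1]
      ring
    have e4 : R1 0 - R2 0 = μ * ψ 0 := by
      simp only [hR1, hR2, hφ]
      rw [mul_zero, neg_zero]
      ring
    unfold cR
    rw [e1, e2, e3]
    have e5 : R1 0 = R2 0 + μ * ψ 0 := by linarith
    rw [e5]
    have e6 : (R2 0 + μ * ψ 0) / μ = R2 0 / μ + ψ 0 := by field_simp
    rw [e6]
    ring
  have g1 := h1 T hTT1
  have g2 := h2 T hTT2
  have hU : 1 ≤ T + 1 := by linarith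
  have hJc := JJ_cont good_zeta (U2 := 2 * T - 1) hU
  have hkey : ∫ α in (-μ)..μ, ψ α * JN riemannZeta (T + 1) (2 * T - 1) (α * Real.log T) =
      PS R1 riemannZeta (T + 1) (2 * T - 1) (μ * Real.log T) -
        PS R2 riemannZeta (T + 1) (2 * T - 1) (μ * Real.log T) := by
    have hfc : Continuous fun α : ℝ =>
        JN riemannZeta (T + 1) (2 * T - 1) (α * Real.log T) := by
      unfold JN
      exact (hJc.comp (by fun_prop)).div_const _
    have hfe : ∀ α : ℝ, JN riemannZeta (T + 1) (2 * T - 1) (-α * Real.log T) =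
        JN riemannZeta (T + 1) (2 * T - 1) (α * Real.log T) := by
      intro α
      unfold JN
      rw [neg_mul, JJ_even good_zeta hU]
    rw [int_even hψc hfc hfe μ]
    have hi1 : IntervalIntegrable (fun α : ℝ => R1 α *
        JJ riemannZeta (T + 1) (2 * T - 1) (μ * Real.log T * α)) volume 0 1 :=
      ((H613SI.conv_cont hc1).mul (hJc.comp (by fun_prop))).intervalIntegrable _ _
    have hi2 : IntervalIntegrable (fun α : ℝ => R2 α *
        JJ riemannZeta (T + 1) (2 * T - 1) (μ * Real.log T * α)) volume 0 1 :=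
      ((H613SI.conv_cont hc2).mul (hJc.comp (by fun_prop))).intervalIntegrable _ _
    unfold PS
    rw [← mul_sub, ← intervalIntegral.integral_sub hi1 hi2]
    have h5 : (2 : ℝ) / Real.sqrt Real.pi = 2 * (1 / Real.sqrt Real.pi) := by ring
    rw [h5, mul_assoc, ← intervalIntegral.integral_const_mul (1 / Real.sqrt Real.pi)]
    congr 1
    refine intervalIntegral.integral_congr fun β _ => ?_
    simp only [hR1, hR2, hφ, JN]
    have h6 : μ * Real.log T * β = μ * β * Real.log T := by ring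
    rw [h6]
    ring
  rw [hkey, ← hconst]
  set M' : ℝ := (2 * T - 1 - (T + 1)) * Real.log T / (2 * Real.pi) with hM'
  have h7 : PS R1 riemannZeta (T + 1) (2 * T - 1) (μ * Real.log T) -
      PS R2 riemannZeta (T + 1) (2 * T - 1) (μ * Real.log T) - M' * (cR R1 μ - cR R2 μ) =
      (PS R1 riemannZeta (T + 1) (2 * T - 1) (μ * Real.log T) - M' * cR R1 μ) -
      (PS R2 riemannZeta (T + 1) (2 * T - 1) (μ * Real.log T) - M' * cR R2 μ) := by
    ring
  rw [h7]
  refine (abs_sub_le_add _ _).trans ?_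
  linarith

/-- the main functional -/
noncomputable def MM (φ : ℝ → ℝ) : ℝ :=
  φ 0 + 2 * (∫ α in (0 : ℝ)..1, α * φ α) + 2 * ∫ α in (1 : ℝ)..(3 / 2), (3 / 2 - α) * φ α

/-- the cosine transform -/
noncomputable def tr (φ : ℝ → ℝ) (x : ℝ) : ℝ := ∫ α : ℝ, φ α * Real.cos (2 * Real.pi * α * x)

/-- the weighted pair sum of the block -/
noncomputable def SS (f : ℝ → ℝ) (A B L : ℝ) : ℝ :=
  ∑ s ∈ Zf riemannZeta A B, ∑ s' ∈ Zf riemannZeta A B,
    (mult riemannZeta s : ℝ) * (mult riemannZeta s' : ℝ) *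
      (f ((s.im - s'.im) * L / (2 * Real.pi)) * Real.exp (-(s.im - s'.im) ^ 2 / 4))

/-- the test functions -/
structure TF (φ : ℝ → ℝ) : Prop where
  cont : Continuous φ
  int : Integrable φ
  even : ∀ x, φ (-x) = φ x
  lip : ∃ K : ℝ, 0 ≤ K ∧ ∀ x ∈ Set.Icc (-1 : ℝ) 1, ∀ y ∈ Set.Icc (-1 : ℝ) 1,
    |φ x - φ y| ≤ K * |x - y|
  pos : ∃ a : ℝ, 0 < a ∧ a < 1 ∧ ∀ x, a ≤ x → 0 ≤ φ x

lemma int_cos_mul {φ : ℝ → ℝ} (hφ : Integrable φ) (c : ℝ) :
    Integrable fun α : ℝ => φ α * Real.cos (c * α) := by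
  refine hφ.mul_bdd (c := 1) (by fun_prop) (Filter.Eventually.of_forall fun α => ?_)
  exact Real.abs_cos_le_one _

lemma int_tr (hRH : RiemannHypothesis) {A B : ℝ} (hA : 1 ≤ A) {φ : ℝ → ℝ} (hφ : Integrable φ)
    (L : ℝ) : Integrable (fun α : ℝ => φ α * JN riemannZeta A B (α * L)) ∧
      ∫ α : ℝ, φ α * JN riemannZeta A B (α * L) = SS (tr φ) A B L := by
  have hpi := Real.pi_pos
  have e : ∀ α : ℝ, φ α * JN riemannZeta A B (α * L) =
      ∑ s ∈ Zf riemannZeta A B, ∑ s' ∈ Zf riemannZeta A B,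
        ((mult riemannZeta s : ℝ) * (mult riemannZeta s' : ℝ) *
          Real.exp (-(s.im - s'.im) ^ 2 / 4)) *
          (φ α * Real.cos ((L * (s.im - s'.im)) * α)) := by
    intro α
    rw [JN_rh hRH hA, Finset.mul_sum]
    refine Finset.sum_congr rfl fun s _ => ?_
    rw [Finset.mul_sum]
    refine Finset.sum_congr rfl fun s' _ => ?_
    have : α * L * (s.im - s'.im) = (L * (s.im - s'.im)) * α := by ring
    rw [this]
    ring
  have hi : ∀ s s' : ℂ, Integrable fun α : ℝ => ((mult riemannZeta s : ℝ) *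
      (mult riemannZeta s' : ℝ) * Real.exp (-(s.im - s'.im) ^ 2 / 4)) *
          (φ α * Real.cos ((L * (s.im - s'.im)) * α)) := fun s s' =>
    (int_cos_mul hφ _).const_mul _
  constructor
  · simp_rw [e]
    exact integrable_finsetSum _ fun s _ => integrable_finsetSum _ fun s' _ => hi s s'
  · simp_rw [e]
    rw [integral_finsetSum _ fun s _ => integrable_finsetSum _ fun s' _ => hi s s']
    unfold SS
    refine Finset.sum_congr rfl fun s _ => ?_
    rw [integral_finsetSum _ fun s' _ => hi s s']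
    refine Finset.sum_congr rfl fun s' _ => ?_
    rw [integral_const_mul]
    unfold tr
    have e2 : ∀ α : ℝ, φ α * Real.cos (2 * Real.pi * α * ((s.im - s'.im) * L / (2 * Real.pi))) =
        φ α * Real.cos ((L * (s.im - s'.im)) * α) := by
      intro α
      congr 2
      field_simp
    simp_rw [e2]
    ring

/-- clamping to `[-1, 1]` -/
noncomputable def clp (x : ℝ) : ℝ := max (-1) (min x 1)

lemma clp_mem (x : ℝ) : clp x ∈ Set.Icc (-1 : ℝ) 1 :=
  ⟨le_max_left _ _, max_le (by norm_num) (min_le_right _ _)⟩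

lemma clp_lip (x y : ℝ) : |clp x - clp y| ≤ |x - y| := by
  unfold clp
  have h1 := abs_max_sub_max_le_abs (min x 1) (min y 1) (-1)
  rw [max_comm, max_comm (-1) (min y 1)]
  refine h1.trans ((abs_min_sub_min_le_max _ _ _ _).trans ?_)
  rw [sub_self, abs_zero]
  exact max_le le_rfl (abs_nonneg _)

lemma clp_eq {x : ℝ} (h : |x| ≤ 1) : clp x = x := by
  obtain ⟨h1, h2⟩ := abs_le.1 h
  unfold clp
  rw [min_eq_left h2, max_eq_right h1]

/-- **The block.** -/
theorem block (hRH : RiemannHypothesis) {φ : ℝ → ℝ} (hφ : TF φ) (ε : ℝ) (hε : 0 < ε) :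
    ∃ V0 : ℝ, 10 ≤ V0 ∧ ∀ V : ℝ, V0 ≤ V →
      (MM φ - ε) * (V * Real.log V / (2 * Real.pi)) ≤
        SS (tr φ) (V + 1) (2 * V - 1) (Real.log V) := by
  have hpi := Real.pi_pos
  obtain ⟨K, hK, hlip⟩ := hφ.lip
  obtain ⟨a0, ha0, ha01, hpos⟩ := hφ.pos
  set Bd : ℝ := |φ 0| + K with hBd
  have hBd0 : 0 ≤ Bd := by positivity
  have hbd : ∀ x ∈ Set.Icc (-1 : ℝ) 1, |φ x| ≤ Bd := by
    intro x hx
    have h1 := hlip x hx 0 ⟨by norm_num, by norm_num⟩
    rw [sub_zero] at h1
    have h2 : |x| ≤ 1 := abs_le.2 hx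
    have h3 : |φ x| ≤ |φ x - φ 0| + |φ 0| := by
      have := abs_add_le (φ x - φ 0) (φ 0)
      rwa [sub_add_cancel] at this
    have h4 : K * |x| ≤ K * 1 := by gcongr
    linarith
  set a : ℝ := max a0 (1 - ε / (16 * (Bd + 1))) with ha
  have haa0 : a0 ≤ a := le_max_left _ _
  have ha1 : a < 1 := by
    rw [ha]
    apply max_lt ha01
    have : 0 < ε / (16 * (Bd + 1)) := by positivity
    linarith
  have hapos : 0 < a := lt_of_lt_of_le ha0 haa0
  have haB : 2 * ((1 - a) * Bd) ≤ ε / 8 := by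
    have h1 : 1 - a ≤ ε / (16 * (Bd + 1)) := by
      have := le_max_right a0 (1 - ε / (16 * (Bd + 1)))
      rw [← ha] at this
      linarith
    have h2 : (1 - a) * Bd ≤ ε / (16 * (Bd + 1)) * (Bd + 1) := by
      apply mul_le_mul h1 (by linarith) hBd0 (by positivity)
    have h3 : ε / (16 * (Bd + 1)) * (Bd + 1) = ε / 16 := by field_simp
    linarith
  set b : ℝ := (a + 1) / 2 with hb
  have hab : a < b := by rw [hb]; linarith
  have hb1 : b < 1 := by rw [hb]; linarith
  have hb0 : 0 < b := by linarith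
  have hba : 0 < b - a := by linarith
  set ψ : ℝ → ℝ := fun x => φ (clp x) * cut a b x with hψ
  have hψeq : ∀ x, |x| ≤ 1 → ψ x = φ x * cut a b x := by
    intro x hx
    simp only [hψ]
    rw [clp_eq hx]
  have hψz : ∀ x, b ≤ |x| → ψ x = 0 := by
    intro x hx
    simp only [hψ]
    rw [cut_zero hab hx, mul_zero]
  have hψlip : ∀ x y, |ψ x - ψ y| ≤ (K + Bd * (1 / (b - a))) * |x - y| := by
    intro x y
    have e : ψ x - ψ y = (φ (clp x) - φ (clp y)) * cut a b x +
        φ (clp y) * (cut a b x - cut a b y) := by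
      simp only [hψ]; ring
    rw [e]
    refine (abs_add_le _ _).trans ?_
    rw [abs_mul, abs_mul, abs_of_nonneg (cut_nonneg a b x)]
    have h1 := hlip _ (clp_mem x) _ (clp_mem y)
    have h2 := clp_lip x y
    have h3 := cut_lip hab x y
    have h4 := cut_le a b x
    have h5 := hbd _ (clp_mem y)
    have h6 := cut_nonneg a b x
    calc |φ (clp x) - φ (clp y)| * cut a b x + |φ (clp y)| * |cut a b x - cut a b y| ≤
        (K * |x - y|) * 1 + Bd * (1 / (b - a) * |x - y|) := by
          have h7 : |φ (clp x) - φ (clp y)| ≤ K * |x - y| := h1.trans (by gcongr)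
          gcongr
      _ = _ := by ring
  have hψc : Continuous ψ := by
    have hK' : 0 ≤ K + Bd * (1 / (b - a)) := by positivity
    have : LipschitzWith (K + Bd * (1 / (b - a))).toNNReal ψ := by
      refine LipschitzWith.of_dist_le_mul fun x y => ?_
      rw [Real.dist_eq, Real.dist_eq, Real.coe_toNNReal _ hK']
      exact hψlip x y
    exact this.continuous
  obtain ⟨V1, hV1, hdet⟩ := det_psi hRH b (ε / 8) hb0 hb1 (by positivity) ψ _ hψlip hψz
  -- the part beyond one
  set C1 : ℝ := ∫ α in (1 : ℝ)..(3 / 2), φ α with hC1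
  have hC10 : 0 ≤ C1 := by
    rw [hC1]
    exact intervalIntegral.integral_nonneg (by norm_num) fun α hα =>
      hpos α (by linarith [hα.1])
  set ε' : ℝ := ε / (16 * (C1 + 1)) with hε'
  have hε'0 : 0 < ε' := by rw [hε']; positivity
  have hεC : ε' * C1 ≤ ε / 16 := by
    have h1 : ε' * C1 ≤ ε' * (C1 + 1) := by gcongr; linarith
    have h2 : ε' * (C1 + 1) = ε / 16 := by rw [hε']; field_simp
    linarith
  obtain ⟨V2, hV2, hlow⟩ := H332B.low ε' hε'0
  -- the constant
  set c0 : ℝ := φ 0 + 2 * ∫ α in (0 : ℝ)..1, α * φ α with hc0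
  set G : ℝ := |c0| + ε + 1 with hG
  have hG0 : 0 < G := by positivity
  refine ⟨max (max V1 V2) (8 * G / ε + 10), le_trans hV1 ((le_max_left _ _).trans (le_max_left _ _)),
    fun V hV => ?_⟩
  have hVV1 : V1 ≤ V := ((le_max_left _ _).trans (le_max_left _ _)).trans hV
  have hVV2 : V2 ≤ V := ((le_max_right _ _).trans (le_max_left _ _)).trans hV
  have hV3 : 8 * G / ε + 10 ≤ V := (le_max_right _ _).trans hV
  have hV10 : 10 ≤ V := hV1.trans hVV1
  have hVpos : 0 < V := by linarith
  have hL : 0 < Real.log V := Real.log_pos (by linarith)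
  set L := Real.log V with hLdef
  have hA : 1 ≤ V + 1 := by linarith
  set J : ℝ → ℝ := fun α => JN riemannZeta (V + 1) (2 * V - 1) (α * L) with hJ
  have hJc : Continuous J := JN_cont hA L
  have hJ0 : ∀ u, 0 ≤ J u := fun u => JN_nonneg _ _ _ _
  have hJe : ∀ α, J (-α) = J α := fun α => JN_even hA L α
  obtain ⟨hint, htr⟩ := int_tr hRH hA hφ.int L (B := 2 * V - 1)
  rw [← htr]
  have hfc : Continuous fun α => φ α * J α := hφ.cont.mul hJc
  -- reduction to the half line
  have i1 : ∫ α : ℝ, φ α * JN riemannZeta (V + 1) (2 * V - 1) (α * L) =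
      2 * ∫ α in Set.Ioi (0 : ℝ), φ α * J α := by
    have h1 := integral_comp_abs (f := fun α => φ α * J α)
    rw [← h1]
    refine integral_congr_ae (Filter.Eventually.of_forall fun α => ?_)
    show φ α * J α = φ |α| * J |α|
    rcases abs_cases α with ⟨h, -⟩ | ⟨h, -⟩
    · rw [h]
    · rw [h, hφ.even, hJe]
  have i2 : (∫ α in (0 : ℝ)..1, φ α * J α) + (∫ α in (1 : ℝ)..(3 / 2), φ α * J α) ≤
      ∫ α in Set.Ioi (0 : ℝ), φ α * J α := by
    have hI : IntegrableOn (fun α => -(φ α * J α)) (Set.Ioi 0) := (hint.neg).integrableOn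
    have h1 := H332B.MB.split hI 1 le_rfl (by norm_num) (fun α hα => by
      have := mul_nonneg (hpos α (by linarith)) (hJ0 α)
      linarith)
    rw [integral_neg, intervalIntegral.integral_neg, intervalIntegral.integral_neg] at h1
    linarith
  have i3 : ∫ α in (0 : ℝ)..1, ψ α * J α ≤ ∫ α in (0 : ℝ)..1, φ α * J α := by
    refine intervalIntegral.integral_mono_on zero_le_one ((hψc.mul hJc).intervalIntegrable _ _)
      (hfc.intervalIntegrable _ _) fun α hα => ?_
    apply mul_le_mul_of_nonneg_right _ (hJ0 α)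
    have habs : |α| = α := abs_of_nonneg hα.1
    rw [hψeq α (by rw [habs]; exact hα.2)]
    rcases le_or_gt α a with h | h
    · rw [cut_one hab (by rw [habs]; exact h), mul_one]
    · exact mul_le_of_le_one_right (hpos α (by linarith)) (cut_le a b α)
  have hψJ : Continuous fun α => ψ α * J α := hψc.mul hJc
  have i4 : ∫ α in (0 : ℝ)..1, ψ α * J α = ∫ α in (0 : ℝ)..b, ψ α * J α := by
    rw [← intervalIntegral.integral_add_adjacent_intervals (b := b)
      (hψJ.intervalIntegrable _ _) (hψJ.intervalIntegrable _ _)]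
    have : ∫ α in b..1, ψ α * J α = 0 := by
      rw [intervalIntegral.integral_congr (g := fun _ => (0 : ℝ))]
      · simp
      · intro α hα
        rw [Set.uIcc_of_le hb1.le] at hα
        show ψ α * J α = 0
        rw [hψz α (hα.1.trans (le_abs_self α)), zero_mul]
    rw [this, add_zero]
  have hψe : ∀ α, ψ (-α) = ψ α := by
    intro α
    rcases le_or_gt |α| 1 with h | h
    · rw [hψeq α h, hψeq (-α) (by rw [abs_neg]; exact h), hφ.even]
      unfold cut
      rw [abs_neg]
    · rw [hψz α (by linarith), hψz (-α) (by rw [abs_neg]; linarith)]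
  have i5 : ∫ α in (-b)..b, ψ α * J α = 2 * ∫ α in (0 : ℝ)..b, ψ α * J α := by
    rw [int_sym (fun α => ψ α * J α) (hψc.mul hJc), ← intervalIntegral.integral_const_mul]
    refine intervalIntegral.integral_congr fun α _ => ?_
    show ψ α * J α + ψ (-α) * J (-α) = _
    rw [hψe, hJe]
    ring
  have i6 : ∫ α in (-b)..b, |α| * ψ α = 2 * ∫ α in (0 : ℝ)..1, α * ψ α := by
    rw [int_sym (fun α => |α| * ψ α) (continuous_abs.mul hψc)]
    have h1 : ∫ α in (0 : ℝ)..b, (|α| * ψ α + |(-α)| * ψ (-α)) =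
        2 * ∫ α in (0 : ℝ)..b, α * ψ α := by
      rw [← intervalIntegral.integral_const_mul]
      refine intervalIntegral.integral_congr fun α hα => ?_
      rw [Set.uIcc_of_le hb0.le] at hα
      show |α| * ψ α + |(-α)| * ψ (-α) = 2 * (α * ψ α)
      rw [abs_neg, hψe, abs_of_nonneg hα.1]
      ring
    rw [h1]
    congr 1
    have hc : Continuous fun α => α * ψ α := continuous_id.mul hψc
    rw [← intervalIntegral.integral_add_adjacent_intervals (b := b) (c := 1)
      (hc.intervalIntegrable _ _) (hc.intervalIntegrable _ _)]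
    have : ∫ α in b..1, α * ψ α = 0 := by
      rw [intervalIntegral.integral_congr (g := fun _ => (0 : ℝ))]
      · simp
      · intro α hα
        rw [Set.uIcc_of_le hb1.le] at hα
        show α * ψ α = 0
        rw [hψz α (hα.1.trans (le_abs_self α)), mul_zero]
    rw [this, add_zero]
  have hψ0 : ψ 0 = φ 0 := by
    rw [hψeq 0 (by simp), cut_one hab (by simp; exact hapos.le), mul_one]
  have i7 : (∫ α in (0 : ℝ)..1, α * φ α) - (1 - a) * Bd ≤ ∫ α in (0 : ℝ)..1, α * ψ α := by
    have hc : Continuous fun α => α * ψ α := continuous_id.mul hψc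
    have hc2 : Continuous fun α => α * φ α := continuous_id.mul hφ.cont
    rw [← intervalIntegral.integral_add_adjacent_intervals (a := 0) (b := a) (c := 1)
      (hc.intervalIntegrable _ _) (hc.intervalIntegrable _ _),
      ← intervalIntegral.integral_add_adjacent_intervals (a := 0) (b := a) (c := 1)
      (hc2.intervalIntegrable _ _) (hc2.intervalIntegrable _ _)]
    have h1 : ∫ α in (0 : ℝ)..a, α * ψ α = ∫ α in (0 : ℝ)..a, α * φ α := by
      refine intervalIntegral.integral_congr fun α hα => ?_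
      rw [Set.uIcc_of_le hapos.le] at hα
      show α * ψ α = α * φ α
      rw [hψeq α (by rw [abs_of_nonneg hα.1]; linarith [hα.2]),
        cut_one hab (by rw [abs_of_nonneg hα.1]; exact hα.2), mul_one]
    have h2 : ∫ α in a..1, (α * φ α - Bd) ≤ ∫ α in a..1, α * ψ α := by
      refine intervalIntegral.integral_mono_on ha1.le
        ((hc2.sub continuous_const).intervalIntegrable _ _) (hc.intervalIntegrable _ _)
        fun α hα => ?_
      have hα0 : 0 ≤ α := by linarith [hα.1]
      have h3 : 0 ≤ φ α := hpos α (by linarith [hα.1])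
      have h4 : φ α ≤ Bd := (le_abs_self _).trans (hbd α ⟨by linarith, hα.2⟩)
      have h5 : α * φ α ≤ 1 * Bd := mul_le_mul hα.2 h4 h3 zero_le_one
      have h6 : 0 ≤ α * ψ α := by
        rw [hψeq α (by rw [abs_of_nonneg hα0]; exact hα.2)]
        exact mul_nonneg hα0 (mul_nonneg h3 (cut_nonneg _ _ _))
      linarith
    rw [intervalIntegral.integral_sub (hc2.intervalIntegrable _ _) intervalIntegrable_const,
      intervalIntegral.integral_const, smul_eq_mul] at h2
    linarith
  -- the determined part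
  set M' : ℝ := (2 * V - 1 - (V + 1)) * L / (2 * Real.pi) with hM'
  set XV : ℝ := V * L / (2 * Real.pi) with hXV
  have hXV0 : 0 < XV := by positivity
  have hMX : M' = (1 - 2 / V) * XV := by
    rw [hM', hXV]
    field_simp
    ring
  have hM'0 : 0 ≤ M' := by
    rw [hMX]
    have : 2 / V ≤ 1 := by rw [div_le_one hVpos]; linarith
    have h4 : 0 ≤ 1 - 2 / V := by linarith
    positivity
  have hM'le : M' ≤ XV := by
    rw [hMX]
    have : 0 < 2 / V := by positivity
    nlinarith
  have j1 : (c0 - ε / 8) * M' - ε / 8 * M' ≤ 2 * ∫ α in (0 : ℝ)..1, φ α * J α := by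
    have h1 := (abs_le.1 (hdet V hVV1)).1
    have h2 : ∫ α in (-b)..b, ψ α * JN riemannZeta (V + 1) (2 * V - 1) (α * Real.log V) =
        ∫ α in (-b)..b, ψ α * J α := rfl
    rw [h2, i5, i6, hψ0] at h1
    have h3 : (c0 - ε / 8) * M' ≤ M' * (φ 0 + 2 * ∫ α in (0 : ℝ)..1, α * ψ α) := by
      rw [mul_comm]
      apply mul_le_mul_of_nonneg_left _ hM'0
      rw [hc0]
      linarith
    rw [← i4] at h1
    have h4 : -(ε / 8 * M') ≤ 2 * (∫ α in (0 : ℝ)..1, ψ α * J α) -
        M' * (φ 0 + 2 * ∫ α in (0 : ℝ)..1, α * ψ α) := h1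
    linarith
  have j2 : (∫ α in (1 : ℝ)..(3 / 2), (3 / 2 - α) * φ α) * XV - ε / 16 * XV ≤
      ∫ α in (1 : ℝ)..(3 / 2), φ α * J α := by
    have hc1 : Continuous fun α : ℝ => (3 / 2 - α) * φ α :=
      (continuous_const.sub continuous_id).mul hφ.cont
    have h4 : ∫ α in (1 : ℝ)..(3 / 2), ((3 / 2 - α) * φ α * XV - ε' * XV * φ α) ≤
        ∫ α in (1 : ℝ)..(3 / 2), φ α * J α := by
      refine intervalIntegral.integral_mono_on (by norm_num)
        (((hc1.mul continuous_const).sub (continuous_const.mul hφ.cont)).intervalIntegrable _ _)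
        (hfc.intervalIntegrable _ _) fun α hα => ?_
      have h5 := hlow V (V + 1) (2 * V - 1) (α * L) hVV2
        ⟨by linarith, le_rfl, le_rfl, by linarith⟩ (by nlinarith [hα.1]) (by nlinarith [hα.2])
      have h6 : α * L / L = α := by field_simp
      rw [h6] at h5
      have h7 : (3 / 2 - α - ε') * XV ≤ J α := by
        have hs : 0 < Real.sqrt Real.pi := Real.sqrt_pos.2 hpi
        simp only [hJ, JN]
        rw [le_div_iff₀ hs]
        have h8 : H332B.X V = XV := by
          unfold H332B.X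
          rw [hXV]
        rw [h8] at h5
        have h9 : H332B.Jb (V + 1) (2 * V - 1) (α * L) =
            JJ riemannZeta (V + 1) (2 * V - 1) (α * L) := rfl
        rw [h9] at h5
        linarith
      have h10 : 0 ≤ φ α := hpos α (by linarith [hα.1])
      calc (3 / 2 - α) * φ α * XV - ε' * XV * φ α = φ α * ((3 / 2 - α - ε') * XV) := by ring
        _ ≤ φ α * J α := by gcongr
    have hq1 : Continuous fun α : ℝ => (3 / 2 - α) * φ α * XV := hc1.mul continuous_const
    have hq2 : Continuous fun α : ℝ => ε' * XV * φ α := continuous_const.mul hφ.cont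
    rw [intervalIntegral.integral_sub (hq1.intervalIntegrable _ _) (hq2.intervalIntegrable _ _),
      intervalIntegral.integral_mul_const, intervalIntegral.integral_const_mul] at h4
    have h5 : ε' * XV * C1 ≤ ε / 16 * XV := by
      calc ε' * XV * C1 = (ε' * C1) * XV := by ring
        _ ≤ _ := by gcongr
    linarith
  have j3 : (c0 - ε / 4) * XV - ε / 4 * XV ≤ (c0 - ε / 4) * M' := by
    have h13 : (c0 - ε / 4) * (XV - M') ≤ G * (XV - M') := by
      apply mul_le_mul_of_nonneg_right _ (by linarith)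
      have := le_abs_self c0
      rw [hG]
      linarith
    have h14 : XV - M' = 2 / V * XV := by rw [hMX]; ring
    have h15 : G * (2 / V * XV) ≤ ε / 4 * XV := by
      have h16 : G * (2 / V) ≤ ε / 4 := by
        have h17 : 8 * G / ε ≤ V := by linarith
        rw [div_le_iff₀ hε] at h17
        rw [← mul_div_assoc, div_le_iff₀ hVpos]
        linarith
      calc G * (2 / V * XV) = G * (2 / V) * XV := by ring
        _ ≤ _ := by gcongr
    rw [h14] at h13
    have h18 : (c0 - ε / 4) * (2 / V * XV) = (c0 - ε / 4) * XV - (c0 - ε / 4) * M' := by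
      rw [hMX]; ring
    rw [h18] at h13
    linarith
  have j4 : (c0 - ε / 8) * M' - ε / 8 * M' = (c0 - ε / 4) * M' := by ring
  have j5 : (MM φ - ε) * XV = ((c0 - ε / 4) * XV - ε / 4 * XV) +
      2 * ((∫ α in (1 : ℝ)..(3 / 2), (3 / 2 - α) * φ α) * XV - ε / 16 * XV) -
        3 / 8 * ε * XV := by
    unfold MM
    rw [hc0]
    ring
  rw [i1, j5]
  have j6 : 0 ≤ 3 / 8 * ε * XV := by positivity
  linarith

end W201FW
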