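import Pool.Agent.W201.FW.Num

/-! The oscillating part of the main functional. -/

open Filter Topology Set MeasureTheory
open scoped BigOperators

namespace W201FW

noncomputable def Gf (x : ℝ) : ℝ := (1 - 3 / 4 * x ^ 2) * Eg x
noncomputable def Ff (x : ℝ) : ℝ := (6021 / 10000 - 3 / 100 * x ^ 2) * Eg x

lemma Gf_deriv (x : ℝ) :
    HasDerivAt Gf (-(3 / 2 * x) * Eg x + (1 - 3 / 4 * x ^ 2) * (-(lam * x) * Eg x)) x := by
  unfold Gf
  have h1 : HasDerivAt (fun x : ℝ => 1 - 3 / 4 * x ^ 2) (-(3 / 2 * x)) x := by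
    have h2 := ((hasDerivAt_pow 2 x).const_mul (3 / 4 : ℝ)).const_sub 1
    refine h2.congr_deriv ?_
    norm_num
    ring
  exact h1.fun_mul (Eg_deriv x)

lemma Ff_deriv (x : ℝ) :
    HasDerivAt Ff (-(6 / 100 * x) * Eg x + (6021 / 10000 - 3 / 100 * x ^ 2) *
      (-(lam * x) * Eg x)) x := by
  unfold Ff
  have h1 : HasDerivAt (fun x : ℝ => 6021 / 10000 - 3 / 100 * x ^ 2) (-(6 / 100 * x)) x := by
    have h2 := ((hasDerivAt_pow 2 x).const_mul (3 / 100 : ℝ)).const_sub (6021 / 10000)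
    refine h2.congr_deriv ?_
    norm_num
    ring
  exact h1.fun_mul (Eg_deriv x)

lemma abs_mul_Eg {u x M : ℝ} (h : |u| ≤ M) : |u * Eg x| ≤ M := by
  rw [abs_mul, abs_of_pos (Eg_pos x)]
  have h1 := Eg_le x
  have h2 := (Eg_pos x).le
  have h3 := abs_nonneg u
  calc |u| * Eg x ≤ |u| * 1 := by gcongr
    _ ≤ M := by linarith

lemma abs_mul_Eg1 {u x M : ℝ} (hx : 1 ≤ x) (h : |u| ≤ M) : |u * Eg x| ≤ M * (338 / 1000) := by
  rw [abs_mul, abs_of_pos (Eg_pos x)]
  have h1 := Eg_le_of_one hx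
  have h2 := (Eg_pos x).le
  have h3 := (abs_nonneg u).trans h
  gcongr

lemma oscA {ω : ℝ} (hω : 0 < ω) : |∫ x in (0 : ℝ)..1, Gf x * Real.sin (ω * x)| ≤
    (1 + 85 / 1000 + 22 / 10) / ω := by
  have hE := Eg_cont
  have h := ibp_sin (f := Gf) (M := 22 / 10) zero_le_one hω (fun x _ => Gf_deriv x)
    (by fun_prop) (fun x hx => by
      have e : -(3 / 2 * x) * Eg x + (1 - 3 / 4 * x ^ 2) * (-(lam * x) * Eg x) =
          (-(3 / 2 * x) - (1 - 3 / 4 * x ^ 2) * (lam * x)) * Eg x := by ring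
      rw [e]
      apply abs_mul_Eg
      obtain ⟨h1, h2⟩ := lam_bounds
      obtain ⟨h3, h4⟩ := hx
      have h5 : 0 ≤ x * (1 - 3 / 4 * x ^ 2) := by
        apply mul_nonneg h3
        nlinarith
      have h6 : x * (1 - 3 / 4 * x ^ 2) * lam ≤ x * (1 - 3 / 4 * x ^ 2) * (21742 / 10000) := by
        gcongr
        linarith
      have h7 : 0 ≤ x * (1 - 3 / 4 * x ^ 2) * lam := mul_nonneg h5 lam_pos.le
      rw [abs_le]
      constructor
      · nlinarith [mul_nonneg h3 (sq_nonneg (x - 867 / 1000)), sq_nonneg (x - 867 / 1000)]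
      · nlinarith)
  refine h.trans ?_
  have h0 : |Gf 0| = 1 := by unfold Gf; rw [Eg_zero]; norm_num
  have h1 : |Gf 1| ≤ 85 / 1000 := by
    unfold Gf
    have := abs_mul_Eg1 (x := 1) (u := 1 - 3 / 4 * (1 : ℝ) ^ 2) (M := 1 / 4) le_rfl
      (by norm_num [abs_of_pos])
    linarith
  rw [h0]
  gcongr
  linarith

lemma oscB {ω : ℝ} (hω : 0 < ω) : |∫ x in (0 : ℝ)..1, x * Ff x * Real.cos (ω * x)| ≤
    (195 / 1000 + 8 / 10) / ω := by
  have hE := Eg_cont
  have h := ibp_cos (f := fun x => x * Ff x) (M := 8 / 10) zero_le_one hω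
    (fun x _ => (hasDerivAt_id x).fun_mul (Ff_deriv x))
    (by unfold Ff; simp only [id]; fun_prop) (fun x hx => by
      have e : 1 * Ff x + id x * (-(6 / 100 * x) * Eg x + (6021 / 10000 - 3 / 100 * x ^ 2) *
          (-(lam * x) * Eg x)) =
          ((6021 / 10000 - 3 / 100 * x ^ 2) * (1 - lam * x ^ 2) - 6 / 100 * x ^ 2) * Eg x := by
        unfold Ff
        simp only [id]
        ring
      rw [e]
      apply abs_mul_Eg
      obtain ⟨h1, h2⟩ := lam_bounds
      obtain ⟨h3, h4⟩ := hx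
      have h5 : 0 ≤ x ^ 2 := sq_nonneg x
      have h6 : x ^ 2 ≤ 1 := by nlinarith
      have h7 : 0 ≤ (6021 / 10000 - 3 / 100 * x ^ 2) * x ^ 2 := by
        apply mul_nonneg _ h5
        linarith
      have h8 : (6021 / 10000 - 3 / 100 * x ^ 2) * x ^ 2 * lam ≤
          (6021 / 10000 - 3 / 100 * x ^ 2) * x ^ 2 * (21742 / 10000) := by
        gcongr
        linarith
      have h9 : 0 ≤ (6021 / 10000 - 3 / 100 * x ^ 2) * x ^ 2 * lam := mul_nonneg h7 lam_pos.le
      rw [abs_le]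
      constructor
      · nlinarith
      · nlinarith)
  refine h.trans ?_
  have h1 : |1 * Ff 1| ≤ 195 / 1000 := by
    unfold Ff
    rw [one_mul]
    have := abs_mul_Eg1 (x := 1) (u := 6021 / 10000 - 3 / 100 * (1 : ℝ) ^ 2) (M := 5721 / 10000)
      le_rfl (by norm_num [abs_of_pos])
    linarith
  apply div_le_div_of_nonneg_right _ hω.le
  simp only [zero_mul, abs_zero, zero_add]
  linarith

lemma oscC {ω : ℝ} (hω : 0 < ω) :
    |∫ x in (1 : ℝ)..(3 / 2), ((3 / 2 - x) * (1 / x - 3 / 4 * x)) * Eg x * Real.sin (ω * x)| ≤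
    (43 / 1000 + 65 / 100 * (1 / 2)) / ω := by
  have hE := Eg_cont
  have hd : ∀ x ∈ Set.uIcc (1 : ℝ) (3 / 2), HasDerivAt
      (fun x : ℝ => ((3 / 2 - x) * (1 / x - 3 / 4 * x)) * Eg x)
      ((-(1 / x - 3 / 4 * x) + (3 / 2 - x) * (-(1 / x ^ 2) - 3 / 4)) * Eg x +
        ((3 / 2 - x) * (1 / x - 3 / 4 * x)) * (-(lam * x) * Eg x)) x := by
    intro x hx
    rw [Set.uIcc_of_le (by norm_num)] at hx
    have hx0 : x ≠ 0 := by linarith [hx.1]
    have h1 : HasDerivAt (fun x : ℝ => 1 / x - 3 / 4 * x) (-(1 / x ^ 2) - 3 / 4) x := by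
      have h2 := (hasDerivAt_inv hx0).fun_sub ((hasDerivAt_id x).const_mul (3 / 4 : ℝ))
      simp only [id, one_div] at h2 ⊢
      refine h2.congr_deriv ?_
      norm_num
    have h3 := ((hasDerivAt_id x).const_sub (3 / 2)).fun_mul h1
    refine (h3.fun_mul (Eg_deriv x)).congr_deriv ?_
    simp only [id]
    ring
  have hc : ContinuousOn (fun x : ℝ => (-(1 / x - 3 / 4 * x) + (3 / 2 - x) *
      (-(1 / x ^ 2) - 3 / 4)) * Eg x +
        ((3 / 2 - x) * (1 / x - 3 / 4 * x)) * (-(lam * x) * Eg x)) (Set.uIcc (1 : ℝ) (3 / 2)) := by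
    have h1 : ContinuousOn (fun x : ℝ => 1 / x) (Set.uIcc (1 : ℝ) (3 / 2)) := by
      refine continuousOn_const.div continuousOn_id fun x hx => ?_
      rw [Set.uIcc_of_le (by norm_num)] at hx
      exact (by linarith [hx.1] : (0 : ℝ) < x).ne'
    have h2 : ContinuousOn (fun x : ℝ => 1 / x ^ 2) (Set.uIcc (1 : ℝ) (3 / 2)) := by
      refine continuousOn_const.div (by fun_prop) fun x hx => ?_
      rw [Set.uIcc_of_le (by norm_num)] at hx
      have := hx.1
      positivity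
    fun_prop
  have h := ibp_sin (f := fun x : ℝ => ((3 / 2 - x) * (1 / x - 3 / 4 * x)) * Eg x)
    (M := 65 / 100) (by norm_num) hω hd hc (fun x hx => by
      have e : (-(1 / x - 3 / 4 * x) + (3 / 2 - x) * (-(1 / x ^ 2) - 3 / 4)) * Eg x +
        ((3 / 2 - x) * (1 / x - 3 / 4 * x)) * (-(lam * x) * Eg x) =
        (-((1 / x - 3 / 4 * x) * (1 + lam * (x * (3 / 2 - x)))) -
          (3 / 2 - x) * (1 / x ^ 2 + 3 / 4)) * Eg x := by ring
      rw [e]
      have hx1 := hx.1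
      have hx2 := hx.2
      have hx0 : 0 < x := by linarith
      refine (abs_mul_Eg1 (M := 19 / 10) hx1 ?_).trans (by norm_num)
      obtain ⟨h1, h2⟩ := lam_bounds
      have q1 : 1 / x ≤ 1 := by rw [div_le_one hx0]; exact hx1
      have q2 : 2 / 3 ≤ 1 / x := by rw [le_div_iff₀ hx0]; linarith
      have q3 : 1 / x ^ 2 ≤ 1 := by rw [div_le_one (by positivity)]; nlinarith
      have q4 : 0 ≤ 1 / x ^ 2 := by positivity
      have q5 : |1 / x - 3 / 4 * x| ≤ 46 / 100 := by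
        rw [abs_le]
        constructor <;> linarith
      have q6 : x * (3 / 2 - x) ≤ 1 / 2 := by nlinarith
      have q7 : 0 ≤ x * (3 / 2 - x) := mul_nonneg hx0.le (by linarith)
      have q8 : |1 + lam * (x * (3 / 2 - x))| ≤ 1 + 21742 / 10000 * (1 / 2) := by
        rw [abs_of_nonneg (by have := lam_pos; positivity)]
        gcongr
        linarith
      have q9 : |(3 / 2 - x) * (1 / x ^ 2 + 3 / 4)| ≤ 1 / 2 * (1 + 3 / 4) := by
        rw [abs_of_nonneg (mul_nonneg (by linarith) (by linarith))]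
        apply mul_le_mul (by linarith) (by linarith) (by linarith) (by norm_num)
      refine (abs_sub _ _).trans ?_
      rw [abs_neg, abs_mul]
      have q10 : |1 / x - 3 / 4 * x| * |1 + lam * (x * (3 / 2 - x))| ≤
          46 / 100 * (1 + 21742 / 10000 * (1 / 2)) := by gcongr
      linarith)
  refine h.trans ?_
  have h1 : |(3 / 2 - 1) * (1 / (1 : ℝ) - 3 / 4 * 1) * Eg 1| ≤ 43 / 1000 := by
    have := abs_mul_Eg1 (x := 1) (u := (3 / 2 - 1) * (1 / (1 : ℝ) - 3 / 4 * 1)) (M := 1 / 8)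
      le_rfl (by norm_num [abs_of_pos])
    linarith
  have h2 : |(3 / 2 - 3 / 2) * (1 / (3 / 2 : ℝ) - 3 / 4 * (3 / 2)) * Eg (3 / 2)| = 0 := by
    rw [sub_self, zero_mul, zero_mul, abs_zero]
  rw [h2]
  apply div_le_div_of_nonneg_right _ hω.le
  linarith

lemma oscD {ω : ℝ} (hω : 0 < ω) :
    |∫ x in (1 : ℝ)..(3 / 2), (3 / 2 - x) * Ff x * Real.cos (ω * x)| ≤
    (98 / 1000 + 42 / 100 * (1 / 2)) / ω := by
  have hE := Eg_cont
  have h := ibp_cos (f := fun x => (3 / 2 - x) * Ff x) (M := 42 / 100)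
    (by norm_num : (1 : ℝ) ≤ 3 / 2) hω
    (fun x _ => ((hasDerivAt_id x).const_sub (3 / 2)).fun_mul (Ff_deriv x))
    (by unfold Ff; simp only [id]; fun_prop) (fun x hx => by
      have e : -1 * Ff x + (3 / 2 - id x) * (-(6 / 100 * x) * Eg x +
          (6021 / 10000 - 3 / 100 * x ^ 2) * (-(lam * x) * Eg x)) =
          (-(6021 / 10000 - 3 / 100 * x ^ 2) * (1 + lam * (x * (3 / 2 - x))) -
            6 / 100 * (x * (3 / 2 - x))) * Eg x := by
        unfold Ff
        simp only [id]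
        ring
      rw [e]
      have hx1 := hx.1
      have hx2 := hx.2
      have hx0 : 0 < x := by linarith
      refine (abs_mul_Eg1 (M := 124 / 100) hx1 ?_).trans (by norm_num)
      obtain ⟨h1, h2⟩ := lam_bounds
      have q6 : x * (3 / 2 - x) ≤ 1 / 2 := by nlinarith
      have q7 : 0 ≤ x * (3 / 2 - x) := mul_nonneg hx0.le (by linarith)
      have q8 : 1 + lam * (x * (3 / 2 - x)) ≤ 1 + 21742 / 10000 * (1 / 2) := by
        gcongr
        linarith
      have q9 : 0 ≤ 1 + lam * (x * (3 / 2 - x)) := by have := lam_pos; positivity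
      have q10 : 6021 / 10000 - 3 / 100 * x ^ 2 ≤ 5721 / 10000 := by nlinarith
      have q11 : 0 ≤ 6021 / 10000 - 3 / 100 * x ^ 2 := by nlinarith
      have q12 : (6021 / 10000 - 3 / 100 * x ^ 2) * (1 + lam * (x * (3 / 2 - x))) ≤
          5721 / 10000 * (1 + 21742 / 10000 * (1 / 2)) := by gcongr
      have q13 : 0 ≤ (6021 / 10000 - 3 / 100 * x ^ 2) * (1 + lam * (x * (3 / 2 - x))) :=
        mul_nonneg q11 q9
      rw [abs_le]
      constructor
      · linarith
      · linarith)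
  refine h.trans ?_
  have h1 : |(3 / 2 - 1) * Ff 1| ≤ 98 / 1000 := by
    unfold Ff
    rw [← mul_assoc]
    have := abs_mul_Eg1 (x := 1) (u := (3 / 2 - 1) * (6021 / 10000 - 3 / 100 * (1 : ℝ) ^ 2))
      (M := 28605 / 100000) le_rfl (by norm_num [abs_of_pos])
    linarith
  have h2 : |(3 / 2 - 3 / 2) * Ff (3 / 2)| = 0 := by
    rw [sub_self, zero_mul, abs_zero]
  rw [h2]
  apply div_le_div_of_nonneg_right _ hω.le
  linarith

/-- **The main functional of the test functions.** -/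
theorem main_bound {τ : ℝ} (hτ : |τ| ≤ 1) {β : ℝ} (hβ : 0 < β) :
    2 * β * τ - 19 / 20 - 4 / 5 / β ≤ phi τ β 0 + 2 * (∫ α in (0 : ℝ)..1, α * phi τ β α) +
      2 * ∫ α in (1 : ℝ)..(3 / 2), (3 / 2 - α) * phi τ β α := by
  have hpi := Real.pi_pos
  have hE := Eg_cont
  have hGc : Continuous Gf := by unfold Gf; fun_prop
  have hFc : Continuous Ff := by unfold Ff; fun_prop
  have hPc := P_cont
  set ω : ℝ := 2 * Real.pi * β with hω
  have hω0 : 0 < ω := by positivity
  have e0 : phi τ β 0 = 2 * β * τ - 6021 / 10000 + P0 := by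
    unfold phi Pp
    rw [Eg_zero, sc_zero]
    simp
    ring
  have e1 : ∫ α in (0 : ℝ)..1, α * phi τ β α =
      τ / Real.pi * (∫ α in (0 : ℝ)..1, Gf α * Real.sin (ω * α)) -
      (∫ α in (0 : ℝ)..1, α * Ff α * Real.cos (ω * α)) +
      ∫ α in (0 : ℝ)..1, α * (Pp (α ^ 2) * Eg α) := by
    have c1 : Continuous fun α : ℝ => Gf α * Real.sin (ω * α) := by fun_prop
    have c2 : Continuous fun α : ℝ => α * Ff α * Real.cos (ω * α) := by fun_prop
    have c3 : Continuous fun α : ℝ => α * (Pp (α ^ 2) * Eg α) := continuous_id.mul hPc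
    have c4 : Continuous fun α : ℝ => τ / Real.pi * (Gf α * Real.sin (ω * α)) :=
      continuous_const.mul c1
    have c5 : Continuous fun α : ℝ => τ / Real.pi * (Gf α * Real.sin (ω * α)) -
      α * Ff α * Real.cos (ω * α) := c4.sub c2
    rw [← intervalIntegral.integral_const_mul,
      ← intervalIntegral.integral_sub (c4.intervalIntegrable _ _) (c2.intervalIntegrable _ _),
      ← intervalIntegral.integral_add (c5.intervalIntegrable _ _) (c3.intervalIntegrable _ _)]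
    refine intervalIntegral.integral_congr fun α _ => ?_
    show α * phi τ β α = τ / Real.pi * (Gf α * Real.sin (ω * α)) -
      α * Ff α * Real.cos (ω * α) + α * (Pp (α ^ 2) * Eg α)
    have h1 := sc_mul β α
    unfold phi Gf Ff
    have h2 : α * (τ * ((1 - 3 / 4 * α ^ 2) * Eg α * sc β α) -
        (6021 / 10000 - 3 / 100 * α ^ 2) * Eg α * Real.cos (2 * Real.pi * β * α) +
        Pp (α ^ 2) * Eg α) = τ * ((1 - 3 / 4 * α ^ 2) * Eg α) * (α * sc β α) -
        α * ((6021 / 10000 - 3 / 100 * α ^ 2) * Eg α) * Real.cos (2 * Real.pi * β * α) +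
        α * (Pp (α ^ 2) * Eg α) := by ring
    rw [h2, h1, ← hω]
    ring
  have e2 : ∫ α in (1 : ℝ)..(3 / 2), (3 / 2 - α) * phi τ β α =
      τ / Real.pi * (∫ x in (1 : ℝ)..(3 / 2), ((3 / 2 - x) * (1 / x - 3 / 4 * x)) * Eg x *
        Real.sin (ω * x)) -
      (∫ α in (1 : ℝ)..(3 / 2), (3 / 2 - α) * Ff α * Real.cos (ω * α)) +
      ∫ α in (1 : ℝ)..(3 / 2), (3 / 2 - α) * (Pp (α ^ 2) * Eg α) := by
    have c1 : ContinuousOn (fun x : ℝ => ((3 / 2 - x) * (1 / x - 3 / 4 * x)) * Eg x *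
        Real.sin (ω * x)) (Set.uIcc (1 : ℝ) (3 / 2)) := by
      have h1 : ContinuousOn (fun x : ℝ => 1 / x) (Set.uIcc (1 : ℝ) (3 / 2)) := by
        refine continuousOn_const.div continuousOn_id fun x hx => ?_
        rw [Set.uIcc_of_le (by norm_num)] at hx
        exact (by linarith [hx.1] : (0 : ℝ) < x).ne'
      fun_prop
    have c2 : Continuous fun α : ℝ => (3 / 2 - α) * Ff α * Real.cos (ω * α) := by fun_prop
    have c3 : Continuous fun α : ℝ => (3 / 2 - α) * (Pp (α ^ 2) * Eg α) :=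
      (continuous_const.sub continuous_id).mul hPc
    have c4 : IntervalIntegrable (fun x : ℝ => τ / Real.pi * (((3 / 2 - x) *
        (1 / x - 3 / 4 * x)) * Eg x * Real.sin (ω * x))) volume 1 (3 / 2) :=
      (continuousOn_const.mul c1).intervalIntegrable
    have c5 : IntervalIntegrable (fun x : ℝ => τ / Real.pi * (((3 / 2 - x) *
        (1 / x - 3 / 4 * x)) * Eg x * Real.sin (ω * x)) -
        (3 / 2 - x) * Ff x * Real.cos (ω * x)) volume 1 (3 / 2) :=
      c4.sub (c2.intervalIntegrable _ _)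
    rw [← intervalIntegral.integral_const_mul,
      ← intervalIntegral.integral_sub c4 (c2.intervalIntegrable _ _),
      ← intervalIntegral.integral_add c5 (c3.intervalIntegrable _ _)]
    refine intervalIntegral.integral_congr fun α hα => ?_
    rw [Set.uIcc_of_le (by norm_num)] at hα
    have hα0 : 0 < α := by linarith [hα.1]
    show (3 / 2 - α) * phi τ β α = τ / Real.pi * (((3 / 2 - α) *
        (1 / α - 3 / 4 * α)) * Eg α * Real.sin (ω * α)) -
        (3 / 2 - α) * Ff α * Real.cos (ω * α) + (3 / 2 - α) * (Pp (α ^ 2) * Eg α)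
    have h1 := sc_mul β α
    have h3 : sc β α = Real.sin (ω * α) / Real.pi / α := by
      rw [eq_div_iff hα0.ne', mul_comm, h1]
    unfold phi Ff
    rw [h3, ← hω]
    field_simp
  rw [e0, e1, e2]
  have hc := const_part
  have hA := oscA hω0
  have hB := oscB hω0
  have hC := oscC hω0
  have hD := oscD hω0
  set IA := ∫ x in (0 : ℝ)..1, Gf x * Real.sin (ω * x)
  set IB := ∫ x in (0 : ℝ)..1, x * Ff x * Real.cos (ω * x)
  set IC := ∫ x in (1 : ℝ)..(3 / 2), ((3 / 2 - x) * (1 / x - 3 / 4 * x)) * Eg x * Real.sin (ω * x)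
  set ID := ∫ x in (1 : ℝ)..(3 / 2), (3 / 2 - x) * Ff x * Real.cos (ω * x)
  have hτA : |τ / Real.pi * (IA + IC)| ≤ 1 / Real.pi *
      ((1 + 85 / 1000 + 22 / 10) / ω + (43 / 1000 + 65 / 100 * (1 / 2)) / ω) := by
    rw [abs_mul, abs_div, abs_of_pos hpi]
    have := abs_add_le IA IC
    gcongr
    exact this.trans (add_le_add hA hC)
  have hBD : |IB + ID| ≤ (195 / 1000 + 8 / 10) / ω + (98 / 1000 + 42 / 100 * (1 / 2)) / ω :=
    (abs_add_le IB ID).trans (add_le_add hB hD)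
  have g1 := (abs_le.1 hτA).1
  have g2 := (abs_le.1 hBD).2
  have g3 : 2 * (1 / Real.pi *
      ((1 + 85 / 1000 + 22 / 10) / ω + (43 / 1000 + 65 / 100 * (1 / 2)) / ω)) +
      2 * ((195 / 1000 + 8 / 10) / ω + (98 / 1000 + 42 / 100 * (1 / 2)) / ω) ≤ 4 / 5 / β := by
    have h1 : 2 * (1 / Real.pi *
      ((1 + 85 / 1000 + 22 / 10) / ω + (43 / 1000 + 65 / 100 * (1 / 2)) / ω)) +
      2 * ((195 / 1000 + 8 / 10) / ω + (98 / 1000 + 42 / 100 * (1 / 2)) / ω) =
      (3653 / 1000 / Real.pi ^ 2 + 1303 / 1000 / Real.pi) / β := by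
      rw [hω]
      field_simp
      ring
    rw [h1]
    gcongr
    have hp1 := Real.pi_gt_d4
    have h2 : 3653 / 1000 / Real.pi ^ 2 ≤ 371 / 1000 := by
      rw [div_le_iff₀ (by positivity)]
      nlinarith
    have h3 : 1303 / 1000 / Real.pi ≤ 415 / 1000 := by
      rw [div_le_iff₀ hpi]
      linarith
    linarith
  have g4 : 2 * β * τ - 6021 / 10000 + P0 +
      2 * (τ / Real.pi * IA - IB + ∫ α in (0 : ℝ)..1, α * (Pp (α ^ 2) * Eg α)) +
      2 * (τ / Real.pi * IC - ID + ∫ α in (1 : ℝ)..(3 / 2), (3 / 2 - α) * (Pp (α ^ 2) * Eg α)) =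
      2 * β * τ + (-(6021 / 10000) + P0 +
    2 * (∫ α in (0 : ℝ)..1, α * (Pp (α ^ 2) * Eg α)) +
    2 * ∫ α in (1 : ℝ)..(3 / 2), (3 / 2 - α) * (Pp (α ^ 2) * Eg α)) +
      2 * (τ / Real.pi * (IA + IC)) - 2 * (IB + ID) := by ring
  rw [g4]
  linarith

end W201FW
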