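import Pool.Agent.W201.FW.Blk
import Pool.Agent.W201.FW.Num2
import Pool.Agent.H321R3.PC.Sum

/-! Far windows: from the blocks to the height `T`. -/

open Complex Filter Topology Set MeasureTheory
open scoped BigOperators ComplexConjugate

namespace W201FW

open H370 H370.A2 H370.A3 H370.AS H295SI H321PC

lemma tf {τ β : ℝ} (hτ : τ ^ 2 = 1) (hβ : 0 ≤ β) : TF (phi τ β) :=
  ⟨phi_cont τ hβ, phi_int τ hβ, phi_even τ β, phi_lip τ hβ,
    ⟨1999 / 2000, by norm_num, by norm_num, fun _ hx => phi_nonneg hτ β hx⟩⟩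

lemma ind_iff {β L d : ℝ} (hL : 0 < L) :
    |d * L / (2 * Real.pi)| ≤ β ↔ |d| ≤ 2 * Real.pi * β / L := by
  have hpi := Real.pi_pos
  rw [abs_div, abs_mul, abs_of_pos hL, abs_of_pos (by positivity : (0 : ℝ) < 2 * Real.pi),
    div_le_iff₀ (by positivity), le_div_iff₀ hL]
  constructor <;> intro h <;> linarith

lemma blockLow (hRH : RiemannHypothesis) {β : ℝ} (hβ : 0 < β) (ε : ℝ) (hε : 0 < ε) :
    ∃ V0 : ℝ, 10 ≤ V0 ∧ ∀ V : ℝ, V0 ≤ V →
      (2 * β - 19 / 20 - 4 / 5 / β - ε) * (V * Real.log V / (2 * Real.pi)) ≤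
        QQp β (V + 1) (2 * V - 1) (Real.log V) := by
  have hpi := Real.pi_pos
  obtain ⟨V0, hV0, h⟩ := block hRH (tf (τ := 1) (by norm_num) hβ.le) ε hε
  refine ⟨V0, hV0, fun V hV => ?_⟩
  have h1 := h V hV
  have hL : 0 < Real.log V := Real.log_pos (by linarith)
  have hMM : 2 * β * 1 - 19 / 20 - 4 / 5 / β ≤ MM (phi 1 β) := main_bound (by norm_num) hβ
  refine le_trans ?_ (h1.trans ?_)
  · apply mul_le_mul_of_nonneg_right (by linarith)
    have : 0 < V := by linarith
    positivity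
  · unfold SS QQp
    refine Finset.sum_le_sum fun s _ => Finset.sum_le_sum fun s' _ => ?_
    apply mul_le_mul_of_nonneg_left _ (by positivity)
    set d := s.im - s'.im with hd
    have he0 := Real.exp_pos (-d ^ 2 / 4)
    have he1 : Real.exp (-d ^ 2 / 4) ≤ 1 := by
      rw [Real.exp_le_one_iff]
      have := sq_nonneg d
      linarith
    have h2 := tr_lower hβ.le (d * Real.log V / (2 * Real.pi))
    have h3 : tr (phi 1 β) (d * Real.log V / (2 * Real.pi)) ≤
        if |d * Real.log V / (2 * Real.pi)| ≤ β then 1 else 0 := h2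
    by_cases hc : |d| ≤ 2 * Real.pi * β / Real.log V
    · rw [if_pos hc]
      rw [if_pos ((ind_iff hL).2 hc)] at h3
      nlinarith
    · rw [if_neg hc]
      rw [if_neg (fun h => hc ((ind_iff hL).1 h))] at h3
      exact mul_nonpos_of_nonpos_of_nonneg h3 he0.le

lemma blockUp (hRH : RiemannHypothesis) {β : ℝ} (hβ : 0 < β) (ε : ℝ) (hε : 0 < ε) :
    ∃ V0 : ℝ, 10 ≤ V0 ∧ ∀ V : ℝ, V0 ≤ V → ∀ w : ℝ, 0 ≤ w → w * Real.log V ≤ 2 * Real.pi * β →
      H332B.BP (V + 1) (2 * V - 1) w ≤ Real.exp (w ^ 2 / 4) *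
        ((2 * β + 19 / 20 + 4 / 5 / β + ε) * H332B.X V) := by
  classical
  have hpi := Real.pi_pos
  obtain ⟨V0, hV0, h⟩ := block hRH (tf (τ := -1) (by norm_num) hβ.le) ε hε
  refine ⟨V0, hV0, fun V hV w hw hwV => ?_⟩
  have h1 := h V hV
  have hL : 0 < Real.log V := Real.log_pos (by linarith)
  have hMM : 2 * β * (-1) - 19 / 20 - 4 / 5 / β ≤ MM (phi (-1) β) :=
    main_bound (by norm_num) hβ
  have hX : 0 ≤ V * Real.log V / (2 * Real.pi) := by
    have : 0 < V := by linarith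
    positivity
  have h2 : SS (tr (phi (-1) β)) (V + 1) (2 * V - 1) (Real.log V) ≤
      -(Real.exp (-(w ^ 2 / 4)) * H332B.BP (V + 1) (2 * V - 1) w) := by
    unfold SS H332B.BP H332B.Zb
    rw [Finset.mul_sum, ← Finset.sum_neg_distrib]
    refine Finset.sum_le_sum fun s _ => ?_
    rw [Finset.mul_sum, ← Finset.sum_neg_distrib]
    refine Finset.sum_le_sum fun s' _ => ?_
    set d := s.im - s'.im with hd
    have he0 := Real.exp_pos (-d ^ 2 / 4)
    have h2 := tr_upper hβ.le (d * Real.log V / (2 * Real.pi))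
    have h3 : tr (phi (-1) β) (d * Real.log V / (2 * Real.pi)) ≤
        -(if |d * Real.log V / (2 * Real.pi)| ≤ β then 1 else 0) := h2
    have hm : 0 ≤ (mult riemannZeta s : ℝ) * (mult riemannZeta s' : ℝ) := by positivity
    have hmz : H343.ZSide.mz s * H343.ZSide.mz s' =
      (mult riemannZeta s : ℝ) * (mult riemannZeta s' : ℝ) := rfl
    have h4 : tr (phi (-1) β) (d * Real.log V / (2 * Real.pi)) * Real.exp (-d ^ 2 / 4) ≤
        -(if |d| ≤ w then Real.exp (-(w ^ 2 / 4)) else 0) := by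
      by_cases hc : |d| ≤ w
      · rw [if_pos hc]
        have h5 : |d| ≤ 2 * Real.pi * β / Real.log V := by
          rw [le_div_iff₀ hL]
          calc |d| * Real.log V ≤ w * Real.log V := by gcongr
            _ ≤ _ := hwV
        rw [if_pos ((ind_iff hL).2 h5)] at h3
        have h6 : Real.exp (-(w ^ 2 / 4)) ≤ Real.exp (-d ^ 2 / 4) := by
          apply Real.exp_le_exp.2
          have h7 : d ^ 2 ≤ w ^ 2 := by
            rw [← sq_abs d]
            gcongr
          linarith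
        calc tr (phi (-1) β) (d * Real.log V / (2 * Real.pi)) * Real.exp (-d ^ 2 / 4) ≤
            -1 * Real.exp (-d ^ 2 / 4) := by gcongr
          _ ≤ _ := by linarith
      · rw [if_neg hc, neg_zero]
        apply mul_nonpos_of_nonpos_of_nonneg _ he0.le
        refine h3.trans ?_
        split_ifs <;> norm_num
    calc (mult riemannZeta s : ℝ) * (mult riemannZeta s' : ℝ) *
        (tr (phi (-1) β) (d * Real.log V / (2 * Real.pi)) * Real.exp (-d ^ 2 / 4)) ≤
        (mult riemannZeta s : ℝ) * (mult riemannZeta s' : ℝ) *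
          (-(if |d| ≤ w then Real.exp (-(w ^ 2 / 4)) else 0)) := by gcongr
      _ = _ := by
        rw [hmz]
        split_ifs <;> ring
  have h3 : (MM (phi (-1) β) - ε) * (V * Real.log V / (2 * Real.pi)) ≤
      -(Real.exp (-(w ^ 2 / 4)) * H332B.BP (V + 1) (2 * V - 1) w) := h1.trans h2
  have h4 : Real.exp (-(w ^ 2 / 4)) * H332B.BP (V + 1) (2 * V - 1) w ≤
      (2 * β + 19 / 20 + 4 / 5 / β + ε) * H332B.X V := by
    unfold H332B.X
    have h5 : -(2 * β + 19 / 20 + 4 / 5 / β + ε) * (V * Real.log V / (2 * Real.pi)) ≤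
        (MM (phi (-1) β) - ε) * (V * Real.log V / (2 * Real.pi)) := by
      apply mul_le_mul_of_nonneg_right (by linarith) hX
    linarith
  have h5 : H332B.BP (V + 1) (2 * V - 1) w = Real.exp (w ^ 2 / 4) *
      (Real.exp (-(w ^ 2 / 4)) * H332B.BP (V + 1) (2 * V - 1) w) := by
    rw [← mul_assoc, ← Real.exp_add, add_neg_cancel, Real.exp_zero, one_mul]
  rw [h5]
  gcongr

/-- summation of a lower bound over the blocks -/
theorem sumLow {β β' c ε V0 : ℝ} (hβ'0 : 0 < β') (hβ'1 : β' < β) (hε : 0 < ε) (hV0 : 10 ≤ V0)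
    (hblk : ∀ V : ℝ, V0 ≤ V → c * (V * Real.log V / (2 * Real.pi)) ≤
        QQp β' (V + 1) (2 * V - 1) (Real.log V)) :
    ∃ T0 : ℝ, 2 ≤ T0 ∧ ∀ T : ℝ, T0 ≤ T →
      (c - ε) * (T / (2 * Real.pi) * Real.log T) ≤
        H332B.N2 T (2 * Real.pi * β / Real.log T) := by
  have hpi := Real.pi_pos
  have hβ : 0 < β := hβ'0.trans hβ'1
  rcases le_or_gt c 0 with hv | hc0
  · refine ⟨2, le_rfl, fun T hT => ?_⟩
    have hL : 0 < Real.log T := Real.log_pos (by linarith)
    have hX : 0 ≤ T / (2 * Real.pi) * Real.log T := by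
      have : 0 < T := by linarith
      positivity
    exact (mul_nonpos_of_nonpos_of_nonneg (by linarith) hX).trans (N2_nonneg _ _)
  · obtain ⟨J, hJ⟩ : ∃ J : ℕ, c * (1 / 2 : ℝ) ^ J < ε / 2 := by
      obtain ⟨J, hJ⟩ := exists_pow_lt_of_lt_one (show (0 : ℝ) < ε / 2 / c by positivity)
        (show (1 / 2 : ℝ) < 1 by norm_num)
      refine ⟨J, ?_⟩
      rw [lt_div_iff₀ hc0] at hJ
      linarith
    set K : ℝ := max (4 * c * (J * Real.log 2) / ε) (β * (J * Real.log 2) / (β - β')) with hK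
    refine ⟨max 2 (max (2 ^ J * V0) (Real.exp K)), le_max_left _ _, fun T hT => ?_⟩
    have hT2 : 2 ≤ T := (le_max_left _ _).trans hT
    have hTV : 2 ^ J * V0 ≤ T := ((le_max_left _ _).trans (le_max_right _ _)).trans hT
    have hTK : Real.exp K ≤ T := ((le_max_right _ _).trans (le_max_right _ _)).trans hT
    have hTpos : 0 < T := by linarith
    have hL : 0 < Real.log T := Real.log_pos (by linarith)
    have hKL : K ≤ Real.log T := by rw [Real.le_log_iff_exp_le hTpos]; exact hTK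
    have hK1 : c * (J * Real.log 2) ≤ ε / 4 * Real.log T := by
      have h1 := (le_max_left _ _).trans hKL
      rw [div_le_iff₀ hε] at h1
      linarith
    have hββ : 0 < β - β' := by linarith
    have hK2 : β * (J * Real.log 2) ≤ (β - β') * Real.log T := by
      have h1 := (le_max_right _ _).trans hKL
      rw [div_le_iff₀ hββ] at h1
      linarith
    have hl2 : 0 < Real.log 2 := Real.log_pos (by norm_num)
    have h2J : (2 : ℝ) ^ J ≤ T := by
      have : (2 : ℝ) ^ J * 1 ≤ 2 ^ J * V0 := by gcongr; linarith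
      linarith
    have hVk : ∀ k < J, V0 ≤ T / 2 ^ (k + 1) := by
      intro k hk
      rw [le_div_iff₀ (by positivity)]
      calc V0 * 2 ^ (k + 1) ≤ V0 * 2 ^ J := by
            gcongr
            · norm_num
            · exact hk
        _ = 2 ^ J * V0 := by ring
        _ ≤ T := hTV
    have hlogk : ∀ k < J, Real.log T - J * Real.log 2 ≤ Real.log (T / 2 ^ (k + 1)) := by
      intro k hk
      rw [Real.log_div hTpos.ne' (by positivity), Real.log_pow]
      have : ((k + 1 : ℕ) : ℝ) ≤ J := by exact_mod_cast hk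
      have h3 : ((k + 1 : ℕ) : ℝ) * Real.log 2 ≤ J * Real.log 2 := by gcongr
      linarith
    have hlogpos : ∀ k < J, 0 < Real.log (T / 2 ^ (k + 1)) := by
      intro k hk
      apply Real.log_pos
      have := hVk k hk
      linarith
    have h1 := N2_ge J T (2 * Real.pi * β / Real.log T) β' h2J (by
      intro k hk
      rw [div_le_div_iff₀ (hlogpos k hk) hL]
      have h3 := hlogk k hk
      have h4 : β * (Real.log T - J * Real.log 2) ≤ β * Real.log (T / 2 ^ (k + 1)) := by gcongr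
      have h5 : β' * Real.log T ≤ β * Real.log (T / 2 ^ (k + 1)) := by linarith
      calc 2 * Real.pi * β' * Real.log T = 2 * Real.pi * (β' * Real.log T) := by ring
        _ ≤ 2 * Real.pi * (β * Real.log (T / 2 ^ (k + 1))) := by gcongr
        _ = _ := by ring)
    refine le_trans ?_ h1
    have h2 : ∀ k ∈ Finset.range J, c * (T / 2 ^ (k + 1) *
        (Real.log T - J * Real.log 2) / (2 * Real.pi)) ≤
        QQp β' (T / 2 ^ (k + 1) + 1) (2 * (T / 2 ^ (k + 1)) - 1)
          (Real.log (T / 2 ^ (k + 1))) := by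
      intro k hk
      rw [Finset.mem_range] at hk
      refine le_trans ?_ (hblk _ (hVk k hk))
      have h3 := hlogk k hk
      have h6 : 0 < T / 2 ^ (k + 1) := by positivity
      gcongr
    refine le_trans ?_ (Finset.sum_le_sum h2)
    have h3 : ∑ k ∈ Finset.range J, c * (T / 2 ^ (k + 1) *
        (Real.log T - J * Real.log 2) / (2 * Real.pi)) =
        c * (T * (Real.log T - J * Real.log 2) / (2 * Real.pi)) * (1 - (1 / 2) ^ J) := by
      have h4 : ∀ n : ℕ, ∑ k ∈ Finset.range n, (1 / 2 : ℝ) ^ (k + 1) = 1 - (1 / 2) ^ n := by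
        intro n
        induction n with
        | zero => simp
        | succ n ih => rw [Finset.sum_range_succ, ih, pow_succ]; ring
      rw [← h4, Finset.mul_sum]
      refine Finset.sum_congr rfl fun k _ => ?_
      rw [one_div, inv_pow]
      field_simp
    rw [h3]
    have h5 : (1 / 2 : ℝ) ^ J ≤ 1 := pow_le_one₀ (by norm_num) (by norm_num)
    have h6 : 0 ≤ (1 / 2 : ℝ) ^ J := by positivity
    have h7 : (c - ε) * Real.log T ≤
        c * (Real.log T - J * Real.log 2) * (1 - (1 / 2) ^ J) := by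
      have h8 : c * (1 / 2 : ℝ) ^ J * Real.log T ≤ ε / 2 * Real.log T := by gcongr
      have h9 : 0 ≤ c * (J * Real.log 2) * (1 / 2 : ℝ) ^ J := by positivity
      have h10 : c * (Real.log T - J * Real.log 2) * (1 - (1 / 2) ^ J) =
          c * Real.log T - c * (1 / 2 : ℝ) ^ J * Real.log T - c * (J * Real.log 2) +
            c * (J * Real.log 2) * (1 / 2 : ℝ) ^ J := by ring
      rw [h10]
      nlinarith
    calc (c - ε) * (T / (2 * Real.pi) * Real.log T) =
        (T / (2 * Real.pi)) * ((c - ε) * Real.log T) := by ring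
      _ ≤ (T / (2 * Real.pi)) * (c * (Real.log T - J * Real.log 2) * (1 - (1 / 2) ^ J)) := by
        gcongr
      _ = _ := by ring

theorem lowN (hRH : RiemannHypothesis) {β : ℝ} (hβ : 0 < β) {ε : ℝ} (hε : 0 < ε) :
    ∃ T0 : ℝ, 2 ≤ T0 ∧ ∀ T : ℝ, T0 ≤ T →
      (2 * β - 19 / 20 - 4 / 5 / β - ε) * (T / (2 * Real.pi) * Real.log T) ≤
        H332B.N2 T (2 * Real.pi * β / Real.log T) := by
  obtain ⟨β', hβ'0, hβ'1, hβ'2⟩ : ∃ β' : ℝ, 0 < β' ∧ β' < β ∧
      2 * β - 19 / 20 - 4 / 5 / β - ε / 4 < 2 * β' - 19 / 20 - 4 / 5 / β' := by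
    have e1 : ∀ᶠ x : ℝ in 𝓝[<] β, x < β := self_mem_nhdsWithin
    have e2 : ∀ᶠ x : ℝ in 𝓝[<] β, 0 < x := nhdsWithin_le_nhds (lt_mem_nhds hβ)
    have hc : ContinuousAt (fun x : ℝ => 2 * x - 19 / 20 - 4 / 5 / x) β :=
      ((continuousAt_const.mul continuousAt_id).sub continuousAt_const).sub
        (continuousAt_const.div continuousAt_id hβ.ne')
    have e3 : ∀ᶠ x : ℝ in 𝓝[<] β,
        2 * β - 19 / 20 - 4 / 5 / β - ε / 4 < 2 * x - 19 / 20 - 4 / 5 / x :=
      nhdsWithin_le_nhds (hc.eventually (lt_mem_nhds (by simp only; linarith)))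
    obtain ⟨x, ⟨h1, h2⟩, h3⟩ := ((e1.and e2).and e3).exists
    exact ⟨x, h2, h1, h3⟩
  obtain ⟨V0, hV0, hblk⟩ := blockLow hRH hβ'0 (ε / 4) (by positivity)
  obtain ⟨T0, hT0, h⟩ := sumLow (c := 2 * β' - 19 / 20 - 4 / 5 / β' - ε / 4) (ε := ε / 4)
    hβ'0 hβ'1 (by positivity) hV0 hblk
  refine ⟨T0, hT0, fun T hT => le_trans ?_ (h T hT)⟩
  have hpi := Real.pi_pos
  have hL : 0 < Real.log T := Real.log_pos (by linarith)
  have hT : 0 < T := by linarith
  apply mul_le_mul_of_nonneg_right (by linarith)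
  positivity

theorem upN (hRH : RiemannHypothesis) {β : ℝ} (hβ : 0 < β) {ε : ℝ} (hε : 0 < ε) :
    ∃ T0 : ℝ, 2 ≤ T0 ∧ ∀ T : ℝ, T0 ≤ T →
      H332B.N2 T (2 * Real.pi * β / Real.log T) ≤
        (2 * β + 19 / 20 + 4 / 5 / β + ε) * (T / (2 * Real.pi) * Real.log T) := by
  have hpi := Real.pi_pos
  obtain ⟨V0, hV0, hblk⟩ := blockUp hRH hβ (ε / 3) (by positivity)
  set E : ℝ := 2 * β + 19 / 20 + 4 / 5 / β with hE
  have hE0 : 0 < E := by positivity
  have hw : Tendsto (fun T : ℝ => 2 * Real.pi * β / Real.log T) atTop (𝓝 0) :=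
    tendsto_const_nhds.div_atTop Real.tendsto_log_atTop
  have hw2 : Tendsto (fun T : ℝ => Real.exp ((2 * Real.pi * β / Real.log T) ^ 2 / 4) *
      (E + ε / 3)) atTop (𝓝 (E + ε / 3)) := by
    have h1 : Tendsto (fun T : ℝ => Real.exp ((2 * Real.pi * β / Real.log T) ^ 2 / 4) *
      (E + ε / 3)) atTop (𝓝 (Real.exp ((0 : ℝ) ^ 2 / 4) * (E + ε / 3))) :=
      ((Real.continuous_exp.tendsto _).comp ((hw.pow 2).div_const 4)).mul_const _
    simpa using h1
  have ev1 : ∀ᶠ T : ℝ in atTop, 2 * Real.pi * β / Real.log T ≤ 1 :=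
    (hw.eventually (gt_mem_nhds zero_lt_one)).mono fun _ h => h.le
  have ev2 : ∀ᶠ T : ℝ in atTop, Real.exp ((2 * Real.pi * β / Real.log T) ^ 2 / 4) *
      (E + ε / 3) ≤ E + 2 * ε / 3 :=
    (hw2.eventually (gt_mem_nhds (by linarith))).mono fun _ h => h.le
  obtain ⟨T2, hT2⟩ := eventually_atTop.1 (ev1.and ev2)
  obtain ⟨T1, hT1⟩ := H332B.iter H332B.wc H332B.step (fun T => 2 * Real.pi * β / Real.log T)
    (E + 2 * ε / 3) (max V0 T2) (by positivity) (hV0.trans (le_max_left _ _))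
    (fun T V hV hVT => by
      have hVV0 : V0 ≤ V := (le_max_left _ _).trans hV
      have hVT2 : T2 ≤ V := (le_max_right _ _).trans hV
      obtain ⟨g1, g2⟩ := hT2 T (by linarith)
      have hlogT : 0 < Real.log T := Real.log_pos (by linarith)
      have hlogV : 0 < Real.log V := Real.log_pos (by linarith)
      have hlogVT : Real.log V ≤ Real.log T := Real.log_le_log (by linarith) (by linarith)
      refine ⟨by positivity, g1, V + 1, 2 * V - 1, ⟨by linarith, le_rfl, le_rfl, by linarith⟩, ?_⟩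
      have h1 := hblk V hVV0 (2 * Real.pi * β / Real.log T) (by positivity) (by
        rw [div_mul_eq_mul_div, div_le_iff₀ hlogT]
        gcongr)
      refine h1.trans ?_
      have hX : 0 ≤ H332B.X V := by
        unfold H332B.X
        have : 0 < V := by linarith
        positivity
      calc Real.exp ((2 * Real.pi * β / Real.log T) ^ 2 / 4) * ((E + ε / 3) * H332B.X V) =
          (Real.exp ((2 * Real.pi * β / Real.log T) ^ 2 / 4) * (E + ε / 3)) * H332B.X V := by
            ring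
        _ ≤ _ := by gcongr) (ε / 3) (by positivity)
  refine ⟨max 2 T1, le_max_left _ _, fun T hT => ?_⟩
  have h := hT1 T ((le_max_right _ _).trans hT)
  refine h.trans (le_of_eq ?_)
  unfold H332B.X
  ring

/-! ### Windows -/

/-- pairs with difference in `[a, b]` -/
noncomputable def NA (T a b : ℝ) : ℝ := by
  classical
  exact ∑ s ∈ H343.ZSide.Z0 T, ∑ s' ∈ H343.ZSide.Z0 T,
    if a ≤ s.im - s'.im ∧ s.im - s'.im ≤ b then H343.ZSide.mz s * H343.ZSide.mz s' else 0

/-- pairs with difference less than `a` in absolute value -/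
noncomputable def NO (T a : ℝ) : ℝ := by
  classical
  exact ∑ s ∈ H343.ZSide.Z0 T, ∑ s' ∈ H343.ZSide.Z0 T,
    if |s.im - s'.im| < a then H343.ZSide.mz s * H343.ZSide.mz s' else 0

lemma NA_split (T : ℝ) {a b : ℝ} (ha : 0 < a) (hab : a ≤ b) :
    H332B.N2 T b = 2 * NA T a b + NO T a := by
  classical
  have h1 : H332B.N2 T b = NA T a b +
      (∑ s ∈ H343.ZSide.Z0 T, ∑ s' ∈ H343.ZSide.Z0 T,
        if a ≤ s'.im - s.im ∧ s'.im - s.im ≤ b then H343.ZSide.mz s' * H343.ZSide.mz s else 0) +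
      NO T a := by
    unfold H332B.N2 NA NO
    rw [← Finset.sum_add_distrib, ← Finset.sum_add_distrib]
    refine Finset.sum_congr rfl fun s _ => ?_
    rw [← Finset.sum_add_distrib, ← Finset.sum_add_distrib]
    refine Finset.sum_congr rfl fun s' _ => ?_
    set d := s.im - s'.im with hd
    have hd2 : s'.im - s.im = -d := by rw [hd]; ring
    rw [hd2, mul_comm (H343.ZSide.mz s') (H343.ZSide.mz s)]
    rcases le_or_gt a d with h | h
    · have e1 : ¬ (a ≤ -d ∧ -d ≤ b) := fun h2 => by linarith [h2.1]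
      have e2 : ¬ |d| < a := by
        rw [abs_of_nonneg (by linarith)]
        linarith
      rw [if_neg e1, if_neg e2, abs_of_nonneg (by linarith : 0 ≤ d)]
      simp only [h, true_and, add_zero]
    · have e0 : ¬ (a ≤ d ∧ d ≤ b) := fun h2 => by linarith [h2.1]
      rw [if_neg e0, zero_add]
      rcases le_or_gt a (-d) with h2 | h2
      · have e2 : ¬ |d| < a := by
          rw [abs_of_nonpos (by linarith)]
          linarith
        rw [if_neg e2, abs_of_nonpos (by linarith : d ≤ 0), add_zero]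
        simp only [h2, true_and]
      · have e1 : ¬ (a ≤ -d ∧ -d ≤ b) := fun h3 => by linarith [h3.1]
        have e2 : |d| < a := abs_lt.2 ⟨by linarith, h⟩
        rw [if_neg e1, if_pos e2, if_pos (e2.le.trans hab), zero_add]
  have h2 : (∑ s ∈ H343.ZSide.Z0 T, ∑ s' ∈ H343.ZSide.Z0 T,
        if a ≤ s'.im - s.im ∧ s'.im - s.im ≤ b then H343.ZSide.mz s' * H343.ZSide.mz s else 0) =
        NA T a b := by
    rw [Finset.sum_comm]
    rfl
  rw [h1, h2]
  ring

lemma NO_le (T a : ℝ) : NO T a ≤ H332B.N2 T a := by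
  classical
  unfold NO H332B.N2
  refine Finset.sum_le_sum fun s _ => Finset.sum_le_sum fun s' _ => ?_
  have hz : 0 ≤ H343.ZSide.mz s * H343.ZSide.mz s' :=
    mul_nonneg (Nat.cast_nonneg _) (Nat.cast_nonneg _)
  by_cases h : |s.im - s'.im| < a
  · rw [if_pos h, if_pos h.le]
  · rw [if_neg h]
    split_ifs
    · exact hz
    · exact le_rfl

lemma NO_ge (T : ℝ) {a a' : ℝ} (h : a' < a) : H332B.N2 T a' ≤ NO T a := by
  classical
  unfold NO H332B.N2
  refine Finset.sum_le_sum fun s _ => Finset.sum_le_sum fun s' _ => ?_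
  have hz : 0 ≤ H343.ZSide.mz s * H343.ZSide.mz s' :=
    mul_nonneg (Nat.cast_nonneg _) (Nat.cast_nonneg _)
  by_cases h2 : |s.im - s'.im| ≤ a'
  · rw [if_pos h2, if_pos (h2.trans_lt h)]
  · rw [if_neg h2]
    split_ifs
    · exact hz
    · exact le_rfl

/-- **Far windows.** -/
theorem window (hRH : RiemannHypothesis) {α β : ℝ} (hα : 0 < α) (hαβ : α ≤ β) :
    ∃ T0 : ℝ, 2 ≤ T0 ∧ ∀ T : ℝ, T0 ≤ T →
      |NA T (2 * Real.pi * α / Real.log T) (2 * Real.pi * β / Real.log T) -
        (β - α) * (T / (2 * Real.pi) * Real.log T)| ≤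
        (19 / 20 + 1 / α) * (T / (2 * Real.pi) * Real.log T) := by
  have hpi := Real.pi_pos
  have hβ : 0 < β := hα.trans_le hαβ
  set η : ℝ := 1 / (20 * α) with hη
  have hη0 : 0 < η := by positivity
  obtain ⟨α', hα'0, hα'1, hα'2⟩ : ∃ α' : ℝ, 0 < α' ∧ α' < α ∧
      2 * α - 4 / 5 / α - η < 2 * α' - 4 / 5 / α' := by
    have e1 : ∀ᶠ x : ℝ in 𝓝[<] α, x < α := self_mem_nhdsWithin
    have e2 : ∀ᶠ x : ℝ in 𝓝[<] α, 0 < x := nhdsWithin_le_nhds (lt_mem_nhds hα)
    have hc : ContinuousAt (fun x : ℝ => 2 * x - 4 / 5 / x) α :=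
      (continuousAt_const.mul continuousAt_id).sub
        (continuousAt_const.div continuousAt_id hα.ne')
    have e3 : ∀ᶠ x : ℝ in 𝓝[<] α, 2 * α - 4 / 5 / α - η < 2 * x - 4 / 5 / x :=
      nhdsWithin_le_nhds (hc.eventually (lt_mem_nhds (by simp only; linarith)))
    obtain ⟨x, ⟨h1, h2⟩, h3⟩ := ((e1.and e2).and e3).exists
    exact ⟨x, h2, h1, h3⟩
  obtain ⟨T1, hT1, g1⟩ := lowN hRH hβ hη0
  obtain ⟨T2, hT2, g2⟩ := upN hRH hβ hη0
  obtain ⟨T3, hT3, g3⟩ := lowN hRH hα'0 hη0
  obtain ⟨T4, hT4, g4⟩ := upN hRH hα hη0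
  refine ⟨max (max T1 T2) (max T3 T4), hT1.trans ((le_max_left _ _).trans (le_max_left _ _)),
    fun T hT => ?_⟩
  have k1 := g1 T (((le_max_left _ _).trans (le_max_left _ _)).trans hT)
  have k2 := g2 T (((le_max_right _ _).trans (le_max_left _ _)).trans hT)
  have k3 := g3 T (((le_max_left _ _).trans (le_max_right _ _)).trans hT)
  have k4 := g4 T (((le_max_right _ _).trans (le_max_right _ _)).trans hT)
  have hT2' : 2 ≤ T := hT1.trans (((le_max_left _ _).trans (le_max_left _ _)).trans hT)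
  have hL : 0 < Real.log T := Real.log_pos (by linarith)
  have hTpos : 0 < T := by linarith
  set X : ℝ := T / (2 * Real.pi) * Real.log T with hX
  have hX0 : 0 < X := by positivity
  have h1 := NA_split T (a := 2 * Real.pi * α / Real.log T) (b := 2 * Real.pi * β / Real.log T)
    (by positivity) (by gcongr)
  have h2 := NO_le T (2 * Real.pi * α / Real.log T)
  have h3 := NO_ge T (a := 2 * Real.pi * α / Real.log T) (a' := 2 * Real.pi * α' / Real.log T)
    (by gcongr)
  have hβα : 4 / 5 / β ≤ 4 / 5 / α := by gcongr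
  have e5 : 4 / 5 / α = 16 * η := by rw [hη]; field_simp; norm_num
  have e6 : 1 / α = 20 * η := by rw [hη]; field_simp
  rw [e5] at hβα hα'2 k4
  rw [e6]
  set b5 : ℝ := 4 / 5 / β with hb5
  set a5 : ℝ := 4 / 5 / α' with ha5
  have m1 : b5 * X ≤ 16 * η * X := by gcongr
  have m2 : (2 * α - 16 * η - η) * X ≤ (2 * α' - a5) * X := by
    apply mul_le_mul_of_nonneg_right hα'2.le hX0.le
  have hηX : 0 < η * X := by positivity
  rw [abs_le]
  constructor
  · nlinarith
  · nlinarith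

/-- **Symmetric windows.** -/
theorem symm (hRH : RiemannHypothesis) {β : ℝ} (hβ : 0 < β) :
    ∃ T0 : ℝ, 2 ≤ T0 ∧ ∀ T : ℝ, T0 ≤ T →
      |H332B.N2 T (2 * Real.pi * β / Real.log T) - 2 * β * (T / (2 * Real.pi) * Real.log T)| ≤
        (19 / 20 + 1 / β) * (T / (2 * Real.pi) * Real.log T) := by
  have hpi := Real.pi_pos
  set η : ℝ := 1 / (20 * β) with hη
  have hη0 : 0 < η := by positivity
  obtain ⟨T1, hT1, g1⟩ := lowN hRH hβ hη0
  obtain ⟨T2, hT2, g2⟩ := upN hRH hβ hη0
  refine ⟨max T1 T2, hT1.trans (le_max_left _ _), fun T hT => ?_⟩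
  have k1 := g1 T ((le_max_left _ _).trans hT)
  have k2 := g2 T ((le_max_right _ _).trans hT)
  have hT2' : 2 ≤ T := hT1.trans ((le_max_left _ _).trans hT)
  have hL : 0 < Real.log T := Real.log_pos (by linarith)
  have hTpos : 0 < T := by linarith
  set X : ℝ := T / (2 * Real.pi) * Real.log T with hX
  have hX0 : 0 < X := by positivity
  have e5 : 4 / 5 / β = 16 * η := by rw [hη]; field_simp; norm_num
  have e6 : 1 / β = 20 * η := by rw [hη]; field_simp
  rw [e5] at k1 k2
  rw [e6]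
  have hηX : 0 < η * X := by positivity
  rw [abs_le]
  constructor
  · nlinarith
  · nlinarith

end W201FW
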