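import Pool.Agent.H332B.Mom

/-! Gaussian moments and transforms, width `17/10`. -/

open Filter Topology Set MeasureTheory
open scoped BigOperators

namespace W201FW

/-- the Gaussian on the frequency side -/
noncomputable def Eg (x : ℝ) : ℝ := Real.exp (-(Real.pi * (x / (17 / 10)) ^ 2))

/-- the Gaussian on the physical side -/
noncomputable def Gg (x : ℝ) : ℝ := Real.exp (-(Real.pi * (17 / 10 * x) ^ 2))

lemma Eg_pos (x : ℝ) : 0 < Eg x := Real.exp_pos _
lemma Gg_pos (x : ℝ) : 0 < Gg x := Real.exp_pos _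

lemma Eg_le (x : ℝ) : Eg x ≤ 1 := by
  unfold Eg
  rw [Real.exp_le_one_iff]
  have := Real.pi_pos
  have : 0 ≤ Real.pi * (x / (17 / 10)) ^ 2 := by positivity
  linarith

lemma Eg_cont : Continuous Eg := by unfold Eg; fun_prop
lemma Gg_cont : Continuous Gg := by unfold Gg; fun_prop

lemma Eg_even (x : ℝ) : Eg (-x) = Eg x := by unfold Eg; ring_nf
lemma Gg_even (x : ℝ) : Gg (-x) = Gg x := by unfold Gg; ring_nf

lemma Eg_zero : Eg 0 = 1 := by unfold Eg; simp
lemma Gg_zero : Gg 0 = 1 := by unfold Gg; simp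

lemma Eg_int (n : ℕ) : Integrable fun x : ℝ => x ^ n * Eg x := by
  have h := (H332B.Mom.cint n).comp_mul_left' (R := (17 / 10 : ℝ)⁻¹) (by norm_num)
  have h2 := h.const_mul ((17 / 10 : ℝ) ^ n)
  refine h2.congr (Filter.Eventually.of_forall fun x => ?_)
  simp only
  unfold Eg
  have e : ((17 / 10 : ℝ)⁻¹ * x) = x / (17 / 10) := by ring
  have e3 : (17 / 10 : ℝ) ^ n * (x / (17 / 10)) ^ n = x ^ n := by
    rw [← mul_pow]; congr 1; field_simp
  rw [e, ← mul_assoc, e3]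

lemma Gg_int (n : ℕ) : Integrable fun x : ℝ => x ^ n * Gg x := by
  have h := (H332B.Mom.cint n).comp_mul_left' (R := (17 / 10 : ℝ)) (by norm_num)
  have h2 := h.const_mul (((17 / 10 : ℝ) ^ n)⁻¹)
  refine h2.congr (Filter.Eventually.of_forall fun x => ?_)
  simp only
  unfold Gg
  rw [mul_pow]
  have : ((17 : ℝ) / 10) ^ n ≠ 0 := by positivity
  field_simp

/-- even moments -/
lemma mk (k : ℕ) (x : ℝ) : ∫ y : ℝ, y ^ (2 * k) * Eg y * Real.cos (2 * Real.pi * y * x) =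
    (17 / 10) ^ (2 * k + 1) * H332B.Cm k (17 / 10 * x) := by
  have h := Measure.integral_comp_mul_left
    (fun y : ℝ => y ^ (2 * k) * Eg y * Real.cos (2 * Real.pi * y * x)) (17 / 10 : ℝ)
  have e1 : |((17 : ℝ) / 10)⁻¹| = (17 / 10)⁻¹ := abs_of_pos (by norm_num)
  rw [e1, smul_eq_mul] at h
  have h2 : ∫ y : ℝ, y ^ (2 * k) * Eg y * Real.cos (2 * Real.pi * y * x) =
      17 / 10 * ∫ u : ℝ, (17 / 10 * u) ^ (2 * k) * Eg (17 / 10 * u) *
        Real.cos (2 * Real.pi * (17 / 10 * u) * x) := by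
    rw [h, ← mul_assoc, mul_inv_cancel₀ (by norm_num), one_mul]
  rw [h2]
  unfold H332B.Cm
  rw [pow_succ, mul_comm _ (17 / 10 : ℝ), mul_assoc, ← integral_const_mul ((17 / 10 : ℝ) ^ (2 * k))]
  congr 1
  refine integral_congr_ae (Filter.Eventually.of_forall fun u => ?_)
  simp only
  have e2 : Eg (17 / 10 * u) = Real.exp (-(Real.pi * u ^ 2)) := by
    unfold Eg
    congr 3
    field_simp
  have e3 : 2 * Real.pi * (17 / 10 * u) * x = 2 * Real.pi * (17 / 10 * x) * u := by ring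
  rw [e2, e3, mul_pow]
  ring

lemma cm0 (x : ℝ) : H332B.Cm 0 (17 / 10 * x) = Gg x := (H332B.mom _).1

/-- `2 π (17/10 x)²` -/
noncomputable def ww (x : ℝ) : ℝ := 2 * Real.pi * (17 / 10 * x) ^ 2

lemma cms (x : ℝ) : H332B.Cm 1 (17 / 10 * x) = (1 - ww x) * Gg x / (2 * Real.pi) ∧
    H332B.Cm 2 (17 / 10 * x) = (3 - 6 * ww x + ww x ^ 2) * Gg x / (2 * Real.pi) ^ 2 ∧
    H332B.Cm 3 (17 / 10 * x) =
      (15 - 45 * ww x + 15 * ww x ^ 2 - ww x ^ 3) * Gg x / (2 * Real.pi) ^ 3 := by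
  have hpi : Real.pi ≠ 0 := Real.pi_ne_zero
  obtain ⟨h0, s0, hm⟩ := H332B.mom (17 / 10 * x)
  have h0' : H332B.Cm 0 (17 / 10 * x) = Gg x := h0
  rw [h0'] at s0
  have c1 := (hm 0).2
  have s1 := (hm 0).1
  have c2 := (hm 1).2
  have s2 := (hm 1).1
  have c3 := (hm 2).2
  norm_num only [Nat.cast_ofNat, Nat.cast_zero, Nat.cast_one] at c1 s1 c2 s2 c3
  rw [h0', s0] at c1
  rw [s0, c1] at s1
  rw [s1, c1] at c2
  rw [s1, c2] at s2
  rw [s2, c2] at c3
  refine ⟨?_, ?_, ?_⟩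
  · rw [c1]; unfold ww; field_simp
  · rw [c2]; unfold ww; field_simp; ring
  · rw [c3]; unfold ww; field_simp; ring

lemma add4 {A B C D : ℝ → ℝ} (hA : Integrable A) (hB : Integrable B) (hC : Integrable C)
    (hD : Integrable D) : ∫ y, (A y + B y + C y + D y) =
      (∫ y, A y) + (∫ y, B y) + (∫ y, C y) + ∫ y, D y := by
  have h2 : Integrable fun y => A y + B y := hA.add hB
  have h3 : Integrable fun y => A y + B y + C y := h2.add hC
  rw [integral_add h3 hD, integral_add h2 hC, integral_add hA hB]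

/-- the transform of a polynomial times the Gaussian -/
lemma tr_poly (a0 a1 a2 a3 x : ℝ) :
    ∫ y : ℝ, (a0 + a1 * y ^ 2 + a2 * y ^ 4 + a3 * y ^ 6) * Eg y * Real.cos (2 * Real.pi * y * x) =
      Gg x * (a0 * (17 / 10) + a1 * (17 / 10) ^ 3 * ((1 - ww x) / (2 * Real.pi)) +
        a2 * (17 / 10) ^ 5 * ((3 - 6 * ww x + ww x ^ 2) / (2 * Real.pi) ^ 2) +
        a3 * (17 / 10) ^ 7 * ((15 - 45 * ww x + 15 * ww x ^ 2 - ww x ^ 3) / (2 * Real.pi) ^ 3)) := by
  have hi : ∀ k : ℕ, Integrable fun y : ℝ => y ^ (2 * k) * Eg y * Real.cos (2 * Real.pi * y * x) := by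
    intro k
    refine (Eg_int (2 * k)).mul_bdd (c := 1) (by fun_prop)
      (Filter.Eventually.of_forall fun α => ?_)
    exact Real.abs_cos_le_one _
  have e : ∀ y : ℝ, (a0 + a1 * y ^ 2 + a2 * y ^ 4 + a3 * y ^ 6) * Eg y *
      Real.cos (2 * Real.pi * y * x) =
      a0 * (y ^ (2 * 0) * Eg y * Real.cos (2 * Real.pi * y * x)) +
      a1 * (y ^ (2 * 1) * Eg y * Real.cos (2 * Real.pi * y * x)) +
      a2 * (y ^ (2 * 2) * Eg y * Real.cos (2 * Real.pi * y * x)) +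
      a3 * (y ^ (2 * 3) * Eg y * Real.cos (2 * Real.pi * y * x)) := by
    intro y; ring
  simp_rw [e]
  rw [add4 ((hi 0).const_mul a0) ((hi 1).const_mul a1) ((hi 2).const_mul a2)
      ((hi 3).const_mul a3), integral_const_mul, integral_const_mul, integral_const_mul, integral_const_mul,
    mk, mk, mk, mk, cm0, (cms x).1, (cms x).2.1, (cms x).2.2]
  ring

end W201FW
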