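import Pool.Agent.W201.FW.Tst

/-! The numerical value of the main functional of the test functions. -/

open Filter Topology Set MeasureTheory
open scoped BigOperators

namespace W201FW

lemma ibp_sin {f f' : ℝ → ℝ} {a b M ω : ℝ} (hab : a ≤ b) (hω : 0 < ω)
    (hf : ∀ x ∈ Set.uIcc a b, HasDerivAt f (f' x) x) (hf' : ContinuousOn f' (Set.uIcc a b))
    (hM : ∀ x ∈ Set.Icc a b, |f' x| ≤ M) :
    |∫ x in a..b, f x * Real.sin (ω * x)| ≤ (|f a| + |f b| + M * (b - a)) / ω := by
  have h := intervalIntegral.integral_mul_deriv_eq_deriv_mul (u := f) (u' := f')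
    (v := fun x => -Real.cos (ω * x) / ω) (v' := fun x => Real.sin (ω * x)) (a := a) (b := b)
    hf (fun x _ => by
      have h1 : HasDerivAt (fun x : ℝ => ω * x) ω x := by
        simpa using (hasDerivAt_id x).const_mul ω
      refine ((h1.cos.fun_neg).div_const ω).congr_deriv ?_
      field_simp) hf'.intervalIntegrable
    ((by fun_prop : Continuous fun x => Real.sin (ω * x)).intervalIntegrable _ _)
  rw [h]
  have h2 : |∫ x in a..b, f' x * (-Real.cos (ω * x) / ω)| ≤ M / ω * (b - a) := by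
    have h3 := intervalIntegral.norm_integral_le_of_norm_le_const (C := M / ω) (a := a) (b := b)
      (f := fun x => f' x * (-Real.cos (ω * x) / ω)) (fun x hx => by
        rw [Set.uIoc_of_le hab] at hx
        rw [Real.norm_eq_abs, abs_mul, abs_div, abs_neg, abs_of_pos hω]
        have h4 := hM x ⟨hx.1.le, hx.2⟩
        have h5 := Real.abs_cos_le_one (ω * x)
        have h6 : 0 ≤ M := (abs_nonneg _).trans h4
        calc |f' x| * (|Real.cos (ω * x)| / ω) ≤ M * (1 / ω) := by gcongr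
          _ = _ := by ring)
    rw [Real.norm_eq_abs, abs_of_nonneg (by linarith : 0 ≤ b - a)] at h3
    exact h3
  have h7 : ∀ y : ℝ, |f y * (-Real.cos (ω * y) / ω)| ≤ |f y| / ω := by
    intro y
    rw [abs_mul, abs_div, abs_neg, abs_of_pos hω]
    have h5 := Real.abs_cos_le_one (ω * y)
    calc |f y| * (|Real.cos (ω * y)| / ω) ≤ |f y| * (1 / ω) := by gcongr
      _ = _ := by ring
  have h8 := h7 a
  have h9 := h7 b
  have h10 : (|f a| + |f b| + M * (b - a)) / ω = |f b| / ω + |f a| / ω + M / ω * (b - a) := by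
    ring
  rw [h10]
  refine (abs_sub _ _).trans ?_
  refine add_le_add ?_ h2
  exact (abs_sub _ _).trans (add_le_add h9 h8)

lemma ibp_cos {f f' : ℝ → ℝ} {a b M ω : ℝ} (hab : a ≤ b) (hω : 0 < ω)
    (hf : ∀ x ∈ Set.uIcc a b, HasDerivAt f (f' x) x) (hf' : ContinuousOn f' (Set.uIcc a b))
    (hM : ∀ x ∈ Set.Icc a b, |f' x| ≤ M) :
    |∫ x in a..b, f x * Real.cos (ω * x)| ≤ (|f a| + |f b| + M * (b - a)) / ω := by
  have h := intervalIntegral.integral_mul_deriv_eq_deriv_mul (u := f) (u' := f')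
    (v := fun x => Real.sin (ω * x) / ω) (v' := fun x => Real.cos (ω * x)) (a := a) (b := b)
    hf (fun x _ => by
      have h1 : HasDerivAt (fun x : ℝ => ω * x) ω x := by
        simpa using (hasDerivAt_id x).const_mul ω
      refine ((h1.sin).div_const ω).congr_deriv ?_
      field_simp) hf'.intervalIntegrable
    ((by fun_prop : Continuous fun x => Real.cos (ω * x)).intervalIntegrable _ _)
  rw [h]
  have h2 : |∫ x in a..b, f' x * (Real.sin (ω * x) / ω)| ≤ M / ω * (b - a) := by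
    have h3 := intervalIntegral.norm_integral_le_of_norm_le_const (C := M / ω) (a := a) (b := b)
      (f := fun x => f' x * (Real.sin (ω * x) / ω)) (fun x hx => by
        rw [Set.uIoc_of_le hab] at hx
        rw [Real.norm_eq_abs, abs_mul, abs_div, abs_of_pos hω]
        have h4 := hM x ⟨hx.1.le, hx.2⟩
        have h5 := Real.abs_sin_le_one (ω * x)
        have h6 : 0 ≤ M := (abs_nonneg _).trans h4
        calc |f' x| * (|Real.sin (ω * x)| / ω) ≤ M * (1 / ω) := by gcongr
          _ = _ := by ring)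
    rw [Real.norm_eq_abs, abs_of_nonneg (by linarith : 0 ≤ b - a)] at h3
    exact h3
  have h7 : ∀ y : ℝ, |f y * (Real.sin (ω * y) / ω)| ≤ |f y| / ω := by
    intro y
    rw [abs_mul, abs_div, abs_of_pos hω]
    have h5 := Real.abs_sin_le_one (ω * y)
    calc |f y| * (|Real.sin (ω * y)| / ω) ≤ |f y| * (1 / ω) := by gcongr
      _ = _ := by ring
  have h8 := h7 a
  have h9 := h7 b
  have h10 : (|f a| + |f b| + M * (b - a)) / ω = |f b| / ω + |f a| / ω + M / ω * (b - a) := by
    ring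
  rw [h10]
  refine (abs_sub _ _).trans ?_
  refine add_le_add ?_ h2
  exact (abs_sub _ _).trans (add_le_add h9 h8)

lemma Eg_deriv (x : ℝ) : HasDerivAt Eg (-(lam * x) * Eg x) x := by
  unfold Eg
  have h1 : HasDerivAt (fun x : ℝ => x / (17 / 10)) (1 / (17 / 10)) x :=
    (hasDerivAt_id x).div_const _
  have h2 := (((h1.fun_pow 2).const_mul Real.pi).fun_neg).exp
  refine h2.congr_deriv ?_
  unfold lam
  norm_num
  ring

/-! ### Values of the Gaussian -/

lemma Eg_one_le : Eg 1 ≤ 338 / 1000 := by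
  unfold Eg
  have hpi := Real.pi_gt_d4
  have h1 : -(Real.pi * (1 / (17 / 10)) ^ 2) ≤ -(1087 / 1000) := by
    have : Real.pi * (1 / (17 / 10)) ^ 2 = Real.pi * (100 / 289) := by ring
    rw [this]
    linarith
  refine (Real.exp_le_exp.2 h1).trans ?_
  rw [Real.exp_neg, inv_le_comm₀ (Real.exp_pos _) (by norm_num)]
  have h2 : Real.exp (1087 / 1000) = Real.exp 1 * Real.exp (87 / 1000) := by
    rw [← Real.exp_add]; norm_num
  rw [h2]
  have h3 := Real.exp_one_gt_d9
  have h4 := Real.quadratic_le_exp_of_nonneg (x := 87 / 1000) (by norm_num)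
  calc ((338 : ℝ) / 1000)⁻¹ ≤ 2.7182818283 * (1 + 87 / 1000 + (87 / 1000) ^ 2 / 2) := by norm_num
    _ ≤ _ := by gcongr

lemma Eg_mid_ge : 86 / 1000 ≤ Eg (3 / 2) := by
  unfold Eg
  have hpi := Real.pi_lt_d4
  have h1 : -(24460 / 10000) ≤ -(Real.pi * (3 / 2 / (17 / 10)) ^ 2) := by
    have : Real.pi * (3 / 2 / (17 / 10)) ^ 2 = Real.pi * (225 / 289) := by ring
    rw [this]
    linarith
  refine le_trans ?_ (Real.exp_le_exp.2 h1)
  rw [Real.exp_neg, le_inv_comm₀ (by norm_num) (Real.exp_pos _)]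
  have h2 : Real.exp (24460 / 10000) = Real.exp 1 * Real.exp 1 * Real.exp (446 / 1000) := by
    rw [← Real.exp_add, ← Real.exp_add]; norm_num
  rw [h2]
  have h3 := Real.exp_one_lt_d9
  have h4 := Real.exp_bound (x := 446 / 1000) (by norm_num [abs_of_pos]) (n := 5) (by norm_num)
  have h5 := (abs_le.1 h4).2
  rw [abs_of_pos (by norm_num : (0 : ℝ) < 446 / 1000)] at h5
  norm_num [Finset.sum_range_succ, Nat.factorial] at h5
  have h6 : Real.exp (446 / 1000) ≤ 15636 / 10000 := by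
    norm_num
    linarith
  have h7 := Real.exp_pos (446 / 1000)
  have h8 := Real.exp_pos 1
  calc Real.exp 1 * Real.exp 1 * Real.exp (446 / 1000) ≤
      2.7182818286 * 2.7182818286 * (15636 / 10000) := by gcongr
    _ ≤ _ := by norm_num

lemma Eg_le_of_one {x : ℝ} (hx : 1 ≤ x) : Eg x ≤ 338 / 1000 := by
  refine le_trans ?_ Eg_one_le
  unfold Eg
  apply Real.exp_le_exp.2
  have := Real.pi_pos
  have h1 : Real.pi * (1 / (17 / 10)) ^ 2 ≤ Real.pi * (x / (17 / 10)) ^ 2 := by gcongr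
  linarith

/-! ### The non-oscillating part -/

noncomputable def V0 (x : ℝ) : ℝ := (137 / 1000 - 65 / 1000 * x ^ 2 + 141 / 10000 * x ^ 4) * Eg x

noncomputable def V1 (x : ℝ) : ℝ := (-(130 / 1000) * x + 564 / 10000 * x ^ 3 -
  lam * x * (137 / 1000 - 65 / 1000 * x ^ 2 + 141 / 10000 * x ^ 4)) * Eg x

lemma V0_deriv (x : ℝ) : HasDerivAt V0 (V1 x) x := by
  unfold V0
  have h1 : HasDerivAt (fun x : ℝ => 137 / 1000 - 65 / 1000 * x ^ 2 + 141 / 10000 * x ^ 4)
      (-(65 / 1000) * (2 * x) + 141 / 10000 * (4 * x ^ 3)) x := by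
    have h2 := (((hasDerivAt_pow 2 x).const_mul (65 / 1000 : ℝ)).const_sub (137 / 1000)).fun_add
      ((hasDerivAt_pow 4 x).const_mul (141 / 10000 : ℝ))
    refine h2.congr_deriv ?_
    norm_num
  refine (h1.fun_mul (Eg_deriv x)).congr_deriv ?_
  unfold V1
  ring

lemma V1_deriv (x : ℝ) : HasDerivAt V1 (Pp (x ^ 2) * Eg x) x := by
  unfold V1
  have h1 : HasDerivAt (fun x : ℝ => -(130 / 1000) * x + 564 / 10000 * x ^ 3 -
      lam * x * (137 / 1000 - 65 / 1000 * x ^ 2 + 141 / 10000 * x ^ 4))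
      (-(130 / 1000) + 564 / 10000 * (3 * x ^ 2) -
        (lam * (137 / 1000 - 65 / 1000 * x ^ 2 + 141 / 10000 * x ^ 4) +
        lam * x * (-(65 / 1000) * (2 * x) + 141 / 10000 * (4 * x ^ 3)))) x := by
    have h2 : HasDerivAt (fun x : ℝ => 137 / 1000 - 65 / 1000 * x ^ 2 + 141 / 10000 * x ^ 4)
      (-(65 / 1000) * (2 * x) + 141 / 10000 * (4 * x ^ 3)) x := by
      have h2 := (((hasDerivAt_pow 2 x).const_mul (65 / 1000 : ℝ)).const_sub (137 / 1000)).fun_add
        ((hasDerivAt_pow 4 x).const_mul (141 / 10000 : ℝ))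
      refine h2.congr_deriv ?_
      norm_num
    have h3 : HasDerivAt (fun x : ℝ => lam * x) lam x := by
      simpa using (hasDerivAt_id x).const_mul lam
    have h4 : HasDerivAt (fun x : ℝ => -(130 / 1000 : ℝ) * x + 564 / 10000 * x ^ 3)
        (-(130 / 1000) + 564 / 10000 * (3 * x ^ 2)) x := by
      have h5 := (((hasDerivAt_id x).const_mul (-(130 / 1000) : ℝ)).fun_add
        ((hasDerivAt_pow 3 x).const_mul (564 / 10000 : ℝ)))
      refine h5.congr_deriv ?_
      norm_num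
    exact h4.fun_sub (h3.fun_mul h2)
  refine (h1.fun_mul (Eg_deriv x)).congr_deriv ?_
  unfold Pp P0 P1 P2 P3
  ring

lemma P_cont : Continuous fun x : ℝ => Pp (x ^ 2) * Eg x := by
  have h1 := Eg_cont
  unfold Pp
  fun_prop

lemma int_V1 : ∫ α in (0 : ℝ)..1, α * (Pp (α ^ 2) * Eg α) = V1 1 - V0 1 + V0 0 := by
  have h := intervalIntegral.integral_eq_sub_of_hasDerivAt (a := (0 : ℝ)) (b := 1)
    (f := fun x => x * V1 x - V0 x) (f' := fun x => x * (Pp (x ^ 2) * Eg x)) (fun x _ => by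
      have h1 := (((hasDerivAt_id x).fun_mul (V1_deriv x)).fun_sub (V0_deriv x))
      refine h1.congr_deriv ?_
      simp) ((continuous_id.mul P_cont).intervalIntegrable _ _)
  rw [h]
  ring

lemma int_V2 : ∫ α in (1 : ℝ)..(3 / 2), (3 / 2 - α) * (Pp (α ^ 2) * Eg α) =
    V0 (3 / 2) - 1 / 2 * V1 1 - V0 1 := by
  have hc : Continuous fun x : ℝ => (3 / 2 - x) * (Pp (x ^ 2) * Eg x) :=
    (continuous_const.sub continuous_id).mul P_cont
  have h := intervalIntegral.integral_eq_sub_of_hasDerivAt (a := (1 : ℝ)) (b := 3 / 2)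
    (f := fun x => (3 / 2 - x) * V1 x + V0 x) (f' := fun x => (3 / 2 - x) * (Pp (x ^ 2) * Eg x))
    (fun x _ => by
      have h1 := ((((hasDerivAt_id x).const_sub (3 / 2)).fun_mul (V1_deriv x)).fun_add (V0_deriv x))
      refine h1.congr_deriv ?_
      simp) (hc.intervalIntegrable _ _)
  rw [h]
  ring

/-- the constant part is at least `-19/20` -/
lemma const_part : -(19 / 20) ≤ -(6021 / 10000) + P0 +
    2 * (∫ α in (0 : ℝ)..1, α * (Pp (α ^ 2) * Eg α)) +
    2 * ∫ α in (1 : ℝ)..(3 / 2), (3 / 2 - α) * (Pp (α ^ 2) * Eg α) := by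
  rw [int_V1, int_V2]
  have e0 : V0 0 = 137 / 1000 := by unfold V0; rw [Eg_zero]; norm_num
  have e1 : V0 1 = 861 / 10000 * Eg 1 := by unfold V0; norm_num
  have e2 : V1 1 = -(736 / 10000 + 861 / 10000 * lam) * Eg 1 := by unfold V1; ring
  have e3 : V0 (3 / 2) = 6213125 / 100000000 * Eg (3 / 2) := by unfold V0; norm_num
  rw [e0, e1, e2, e3]
  unfold P0
  have h1 := Eg_one_le
  have h2 := Eg_mid_ge
  obtain ⟨-, h3⟩ := lam_bounds
  have h4 := lam_pos
  have h5 := Eg_pos 1
  have h6 : (736 / 10000 + 861 / 10000 * lam) * Eg 1 ≤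
      (736 / 10000 + 861 / 10000 * (21741129 / 10000000)) * (338 / 1000) := by gcongr
  linarith

end W201FW
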