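import Pool.Agent.W201.FW.Gau

/-! The physical side of the test functions. -/

open Filter Topology Set MeasureTheory
open scoped BigOperators

namespace W201FW

/-- `2π / (17/10)²` -/
noncomputable def lam : ℝ := 200 * Real.pi / 289

lemma lam_pos : 0 < lam := by unfold lam; have := Real.pi_pos; positivity

noncomputable def P0 : ℝ := -(137 / 1000) * lam - 130 / 1000
noncomputable def P1 : ℝ := 137 / 1000 * lam ^ 2 + 325 / 1000 * lam + 1692 / 10000
noncomputable def P2 : ℝ := -(65 / 1000) * lam ^ 2 - 1269 / 10000 * lam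
noncomputable def P3 : ℝ := 141 / 10000 * lam ^ 2

/-- the polynomial of the compensating function -/
noncomputable def Pp (e : ℝ) : ℝ := P0 + P1 * e + P2 * e ^ 2 + P3 * e ^ 3

/-- the transform of the compensating function is nonpositive -/
lemma trP (x : ℝ) : ∫ y : ℝ, Pp (y ^ 2) * Eg y * Real.cos (2 * Real.pi * y * x) ≤ 0 := by
  have hpi := Real.pi_pos
  have h := tr_poly P0 P1 P2 P3 x
  have e : ∀ y : ℝ, Pp (y ^ 2) * Eg y * Real.cos (2 * Real.pi * y * x) =
      (P0 + P1 * y ^ 2 + P2 * y ^ 4 + P3 * y ^ 6) * Eg y * Real.cos (2 * Real.pi * y * x) := by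
    intro y; unfold Pp; ring
  simp_rw [e]
  rw [h]
  have h2 : P0 * (17 / 10) + P1 * (17 / 10) ^ 3 * ((1 - ww x) / (2 * Real.pi)) +
        P2 * (17 / 10) ^ 5 * ((3 - 6 * ww x + ww x ^ 2) / (2 * Real.pi) ^ 2) +
        P3 * (17 / 10) ^ 7 * ((15 - 45 * ww x + 15 * ww x ^ 2 - ww x ^ 3) / (2 * Real.pi) ^ 3) =
      -(17 / 10 * ww x * ((137 / 1000 * lam - 65 / 1000 + 3 * (141 / 10000) / lam) +
        (65 / 1000 - 6 * (141 / 10000) / lam) * ww x + (141 / 10000) / lam * ww x ^ 2)) := by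
    unfold P0 P1 P2 P3 lam
    field_simp
    ring
  rw [h2]
  have hl := lam_pos
  have hl2 : 2 < lam := by
    unfold lam
    have := Real.pi_gt_three
    have := Real.pi_gt_d2
    linarith
  have hw : 0 ≤ ww x := by unfold ww; positivity
  have h3 : 0 ≤ 137 / 1000 * lam - 65 / 1000 + 3 * (141 / 10000) / lam := by
    have : 0 ≤ 3 * (141 / 10000) / lam := by positivity
    linarith
  have h4 : 0 ≤ 65 / 1000 - 6 * (141 / 10000) / lam := by
    have : 6 * (141 / 10000) / lam ≤ 65 / 1000 := by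
      rw [div_le_iff₀ hl]
      linarith
    linarith
  have h5 : 0 ≤ (141 / 10000) / lam := by positivity
  have h6 := Gg_pos x
  apply mul_nonpos_of_nonneg_of_nonpos h6.le
  have : 0 ≤ 17 / 10 * ww x * ((137 / 1000 * lam - 65 / 1000 + 3 * (141 / 10000) / lam) +
        (65 / 1000 - 6 * (141 / 10000) / lam) * ww x + (141 / 10000) / lam * ww x ^ 2) := by
    positivity
  linarith

noncomputable def g0 : ℝ := 17 / 10 - 3 / 4 * (17 / 10) ^ 3 / (2 * Real.pi)
noncomputable def g1 : ℝ := 3 / 4 * (17 / 10) ^ 5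

/-- the density of the edge -/
noncomputable def gk (x : ℝ) : ℝ := Gg x * (g0 + g1 * x ^ 2)

noncomputable def B0 : ℝ := 1 / 2 * (6021 / 10000 * (17 / 10) - 3 / 100 * (17 / 10) ^ 3 / (2 * Real.pi))
noncomputable def b1 : ℝ := 1 / 2 * (3 / 100 * (17 / 10) ^ 5)

/-- the bump at the edge -/
noncomputable def Bk (x : ℝ) : ℝ := Gg x * (B0 + b1 * x ^ 2)

lemma tr_g (x : ℝ) : ∫ y : ℝ, (1 - 3 / 4 * y ^ 2) * Eg y * Real.cos (2 * Real.pi * y * x) =
    gk x := by
  have hpi := Real.pi_pos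
  have h := tr_poly 1 (-(3 / 4)) 0 0 x
  have e : ∀ y : ℝ, (1 - 3 / 4 * y ^ 2) * Eg y * Real.cos (2 * Real.pi * y * x) =
      (1 + -(3 / 4) * y ^ 2 + 0 * y ^ 4 + 0 * y ^ 6) * Eg y * Real.cos (2 * Real.pi * y * x) := by
    intro y; ring
  simp_rw [e]
  rw [h]
  unfold gk g0 g1 ww
  field_simp
  ring

lemma tr_B (x : ℝ) : ∫ y : ℝ, (6021 / 10000 - 3 / 100 * y ^ 2) * Eg y *
    Real.cos (2 * Real.pi * y * x) = 2 * Bk x := by
  have hpi := Real.pi_pos
  have h := tr_poly (6021 / 10000) (-(3 / 100)) 0 0 x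
  have e : ∀ y : ℝ, (6021 / 10000 - 3 / 100 * y ^ 2) * Eg y * Real.cos (2 * Real.pi * y * x) =
      (6021 / 10000 + -(3 / 100) * y ^ 2 + 0 * y ^ 4 + 0 * y ^ 6) * Eg y *
        Real.cos (2 * Real.pi * y * x) := by
    intro y; ring
  simp_rw [e]
  rw [h]
  unfold Bk B0 b1 ww
  field_simp
  ring

lemma gk_cont : Continuous gk := by unfold gk; exact Gg_cont.mul (by fun_prop)
lemma Bk_cont : Continuous Bk := by unfold Bk; exact Gg_cont.mul (by fun_prop)

lemma gk_even (x : ℝ) : gk (-x) = gk x := by unfold gk; rw [Gg_even]; ring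
lemma Bk_even (x : ℝ) : Bk (-x) = Bk x := by unfold Bk; rw [Gg_even]; ring

lemma g0_bounds : 11135 / 10000 ≤ g0 ∧ g0 ≤ 11136 / 10000 := by
  have h1 := Real.pi_gt_d4
  have h2 := Real.pi_lt_d4
  have hpi := Real.pi_pos
  unfold g0
  constructor
  · have : 3 / 4 * (17 / 10) ^ 3 / (2 * Real.pi) ≤ 17 / 10 - 11135 / 10000 := by
      rw [div_le_iff₀ (by positivity)]
      nlinarith
    linarith
  · have : 17 / 10 - 11136 / 10000 ≤ 3 / 4 * (17 / 10) ^ 3 / (2 * Real.pi) := by
      rw [le_div_iff₀ (by positivity)]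
      nlinarith
    linarith

lemma B0_bounds : 1 / 2 ≤ B0 ∧ B0 ≤ 50006 / 100000 := by
  have h1 := Real.pi_gt_d4
  have h2 := Real.pi_lt_d4
  have hpi := Real.pi_pos
  unfold B0
  constructor
  · have : 3 / 100 * (17 / 10) ^ 3 / (2 * Real.pi) ≤ 6021 / 10000 * (17 / 10) - 1 := by
      rw [div_le_iff₀ (by positivity)]
      nlinarith
    linarith
  · have : 6021 / 10000 * (17 / 10) - 100012 / 100000 ≤
        3 / 100 * (17 / 10) ^ 3 / (2 * Real.pi) := by
      rw [le_div_iff₀ (by positivity)]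
      nlinarith
    linarith

lemma gk_pos (x : ℝ) : 0 < gk x := by
  unfold gk
  have h1 := g0_bounds.1
  have h2 : 0 < g1 := by unfold g1; norm_num
  have h3 : 0 < g0 + g1 * x ^ 2 := by positivity
  exact mul_pos (Gg_pos x) h3

lemma Bk_pos (x : ℝ) : 0 < Bk x := by
  unfold Bk
  have h1 := B0_bounds.1
  have h2 : 0 < b1 := by unfold b1; norm_num
  have h3 : 0 < B0 + b1 * x ^ 2 := by positivity
  exact mul_pos (Gg_pos x) h3

lemma gk_int : Integrable gk := by
  have h := ((Gg_int 0).const_mul g0).add ((Gg_int 2).const_mul g1)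
  refine h.congr (Filter.Eventually.of_forall fun x => ?_)
  simp only [Pi.add_apply]
  unfold gk
  ring

lemma gk_total : ∫ x : ℝ, gk x = 1 := by
  have hpi := Real.pi_pos
  have h0 : ∀ k : ℕ, ∫ x : ℝ, x ^ (2 * k) * Gg x =
      ((17 / 10 : ℝ) ^ (2 * k + 1))⁻¹ * H332B.Cm k 0 := by
    intro k
    have h := Measure.integral_comp_mul_left
      (fun y : ℝ => y ^ (2 * k) * Real.exp (-(Real.pi * y ^ 2)) *
        Real.cos (2 * Real.pi * 0 * y)) (17 / 10 : ℝ)
    have e1 : |((17 : ℝ) / 10)⁻¹| = (17 / 10)⁻¹ := abs_of_pos (by norm_num)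
    rw [e1, smul_eq_mul] at h
    have h3 : ∫ x : ℝ, x ^ (2 * k) * Gg x = ((17 / 10 : ℝ) ^ (2 * k))⁻¹ *
        ∫ x : ℝ, (17 / 10 * x) ^ (2 * k) * Real.exp (-(Real.pi * (17 / 10 * x) ^ 2)) *
          Real.cos (2 * Real.pi * 0 * (17 / 10 * x)) := by
      rw [← integral_const_mul]
      refine integral_congr_ae (Filter.Eventually.of_forall fun x => ?_)
      simp only
      unfold Gg
      have h7 : (17 / 10 * x) ^ (2 * k) = (17 / 10 : ℝ) ^ (2 * k) * x ^ (2 * k) :=
        mul_pow _ _ _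
      rw [mul_zero, zero_mul, Real.cos_zero, mul_one, h7]
      have h5 : ((17 : ℝ) / 10) ^ (2 * k) ≠ 0 := by positivity
      have h6 : ((17 / 10 : ℝ) ^ (2 * k))⁻¹ * ((17 / 10) ^ (2 * k) * x ^ (2 * k) *
          Real.exp (-(Real.pi * (17 / 10 * x) ^ 2))) = (((17 / 10 : ℝ) ^ (2 * k))⁻¹ *
          (17 / 10) ^ (2 * k)) * (x ^ (2 * k) * Real.exp (-(Real.pi * (17 / 10 * x) ^ 2))) := by
        ring
      rw [h6, inv_mul_cancel₀ h5, one_mul]
    rw [h3, h]
    unfold H332B.Cm
    rw [pow_succ, mul_inv]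
    ring
  obtain ⟨h1, s1, hm⟩ := H332B.mom 0
  have h2 := (hm 0).2
  rw [h1] at h2
  have e : ∀ x : ℝ, gk x = g0 * (x ^ (2 * 0) * Gg x) + g1 * (x ^ (2 * 1) * Gg x) := by
    intro x; unfold gk; ring
  simp_rw [e]
  rw [integral_add ((Gg_int (2 * 0)).const_mul _) ((Gg_int (2 * 1)).const_mul _),
    integral_const_mul, integral_const_mul, h0, h0, h1]
  have h4 : H332B.Cm 1 0 = 1 / (2 * Real.pi) := by
    have h5 : H332B.Cm (0 + 1) 0 = H332B.Cm 1 0 := rfl
    rw [h5] at h2
    rw [h2]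
    simp
  rw [h4]
  unfold g0 g1
  simp only [mul_zero, zero_pow, ne_eq, OfNat.ofNat_ne_zero, not_false_eq_true, neg_zero,
    Real.exp_zero]
  field_simp
  ring

/-- the integral of the density -/
noncomputable def Ig (y : ℝ) : ℝ := ∫ t in (0 : ℝ)..y, gk t

lemma Ig_deriv (y : ℝ) : HasDerivAt Ig (gk y) y :=
  intervalIntegral.integral_hasDerivAt_right (gk_cont.intervalIntegrable _ _)
    (gk_cont.stronglyMeasurableAtFilter _ _) gk_cont.continuousAt

lemma Ig_odd (y : ℝ) : Ig (-y) = -Ig y := by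
  unfold Ig
  have h := intervalIntegral.integral_comp_neg (a := (0 : ℝ)) (b := y) gk
  simp only [gk_even, neg_zero] at h
  rw [h, intervalIntegral.integral_symm]

lemma half : ∫ x in Set.Ioi (0 : ℝ), gk x = 1 / 2 := by
  have h := integral_comp_abs (f := gk)
  have h2 : ∫ x : ℝ, gk |x| = 1 := by
    rw [← gk_total]
    refine integral_congr_ae (Filter.Eventually.of_forall fun x => ?_)
    simp only
    rcases abs_cases x with ⟨h, -⟩ | ⟨h, -⟩
    · rw [h]
    · rw [h, gk_even]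
  rw [h2] at h
  linarith

lemma Ig_tendsto : Tendsto Ig atTop (𝓝 (1 / 2)) := by
  rw [← half]
  exact intervalIntegral_tendsto_integral_Ioi 0 gk_int.integrableOn tendsto_id

lemma Ig_mono : Monotone Ig := by
  intro x y hxy
  have h : Ig y - Ig x = ∫ t in x..y, gk t := by
    unfold Ig
    rw [intervalIntegral.integral_interval_sub_left (gk_cont.intervalIntegrable _ _)
      (gk_cont.intervalIntegrable _ _)]
  have h2 : 0 ≤ ∫ t in x..y, gk t := intervalIntegral.integral_nonneg hxy fun t _ => (gk_pos t).le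
  linarith

lemma Ig_le (y : ℝ) : Ig y ≤ 1 / 2 := Ig_mono.ge_of_tendsto Ig_tendsto y

/-- the polynomial of the derivative -/
noncomputable def wp (y : ℝ) : ℝ :=
  g0 + (2 * b1 - 2 * Real.pi * (17 / 10) ^ 2 * B0) * y + g1 * y ^ 2 -
    2 * Real.pi * (17 / 10) ^ 2 * b1 * y ^ 3

noncomputable def hk (y : ℝ) : ℝ := Bk y + Ig y - 1 / 2

lemma hk_deriv (y : ℝ) : HasDerivAt hk (Gg y * wp y) y := by
  have h1 : HasDerivAt Gg (Gg y * (-(2 * Real.pi * (17 / 10) ^ 2 * y))) y := by
    unfold Gg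
    have h2 : HasDerivAt (fun x : ℝ => -(Real.pi * (17 / 10 * x) ^ 2))
        (-(2 * Real.pi * (17 / 10) ^ 2 * y)) y := by
      have h3 : HasDerivAt (fun x : ℝ => (17 / 10 * x)) (17 / 10) y := by
        simpa using (hasDerivAt_id y).const_mul (17 / 10 : ℝ)
      have h4 := ((h3.fun_pow 2).const_mul Real.pi).fun_neg
      refine h4.congr_deriv ?_
      norm_num
      ring
    exact h2.exp
  have h5 : HasDerivAt (fun x : ℝ => B0 + b1 * x ^ 2) (b1 * (2 * y)) y := by
    have := ((hasDerivAt_pow 2 y).const_mul b1).const_add B0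
    simpa using this
  have h6 : HasDerivAt Bk (Gg y * (-(2 * Real.pi * (17 / 10) ^ 2 * y)) * (B0 + b1 * y ^ 2) +
      Gg y * (b1 * (2 * y))) y := h1.fun_mul h5
  have h7 := (h6.fun_add (Ig_deriv y)).sub_const (1 / 2)
  refine h7.congr_deriv ?_
  unfold gk wp
  ring

lemma wp_bounds : ∃ A C : ℝ, 8652 / 1000 ≤ A ∧ A ≤ 8656 / 1000 ∧ 3866 / 1000 ≤ C ∧ C ≤ 3869 / 1000 ∧
    ∀ y, wp y = g0 - A * y + g1 * y ^ 2 - C * y ^ 3 := by
  have h1 := Real.pi_gt_d4
  have h2 := Real.pi_lt_d4
  obtain ⟨hb1, hb2⟩ := B0_bounds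
  refine ⟨2 * Real.pi * (17 / 10) ^ 2 * B0 - 2 * b1, 2 * Real.pi * (17 / 10) ^ 2 * b1, ?_, ?_, ?_,
    ?_, ?_⟩
  · unfold b1
    nlinarith
  · unfold b1
    nlinarith
  · unfold b1
    nlinarith
  · unfold b1
    nlinarith
  · intro y
    unfold wp
    ring

lemma wp_anti {s t : ℝ} (hs : 0 ≤ s) (hst : s ≤ t) (ht : t ≤ 3 / 10) : wp t ≤ wp s := by
  obtain ⟨A, C, hA1, hA2, hC1, hC2, h⟩ := wp_bounds
  rw [h, h]
  have e : g0 - A * s + g1 * s ^ 2 - C * s ^ 3 - (g0 - A * t + g1 * t ^ 2 - C * t ^ 3) =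
      (t - s) * (A - g1 * (s + t) + C * (s ^ 2 + s * t + t ^ 2)) := by ring
  have hg : g1 ≤ 1065 / 100 := by unfold g1; norm_num
  have hg0 : 0 ≤ g1 := by unfold g1; norm_num
  have h2 : 0 ≤ A - g1 * (s + t) + C * (s ^ 2 + s * t + t ^ 2) := by
    have h3 : g1 * (s + t) ≤ 1065 / 100 * (6 / 10) := by
      apply mul_le_mul hg (by linarith) (by linarith) (by norm_num)
    have h4 : 0 ≤ C * (s ^ 2 + s * t + t ^ 2) := by
      have : 0 ≤ t := hs.trans hst
      positivity
    linarith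
  have h3 : 0 ≤ (t - s) * (A - g1 * (s + t) + C * (s ^ 2 + s * t + t ^ 2)) :=
    mul_nonneg (by linarith) h2
  linarith

lemma wp_neg {y : ℝ} (hy : 3 / 10 ≤ y) : wp y < 0 := by
  obtain ⟨A, C, hA1, hA2, hC1, hC2, h⟩ := wp_bounds
  rw [h]
  have hg : g1 ≤ 1065 / 100 := by unfold g1; norm_num
  have hg0 := g0_bounds.2
  have hy0 : 0 ≤ y := by linarith
  have h1 : g0 - A * y + g1 * y ^ 2 - C * y ^ 3 ≤
      11136 / 10000 - 8652 / 1000 * y + 1065 / 100 * y ^ 2 - 3866 / 1000 * y ^ 3 := by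
    have e1 : 8652 / 1000 * y ≤ A * y := by gcongr
    have e2 : g1 * y ^ 2 ≤ 1065 / 100 * y ^ 2 := by gcongr
    have e3 : 3866 / 1000 * y ^ 3 ≤ C * y ^ 3 := by gcongr
    linarith
  have hs : 0 ≤ y - 3 / 10 := by linarith
  nlinarith [mul_nonneg hs (sq_nonneg (y - 123 / 100)), mul_nonneg hs hs]

/-- the tail of the density is at most the bump -/
lemma key_ineq {y : ℝ} (hy : 0 ≤ y) : 1 / 2 - Ig y ≤ Bk y := by
  have hmain : 0 ≤ hk y := by
    rcases le_or_gt 0 (wp y) with h | h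
    · -- increasing on [0, y]
      have hy3 : y < 3 / 10 := by
        by_contra hcon
        push Not at hcon
        exact absurd h (not_le.2 (wp_neg hcon))
      have hmono : MonotoneOn hk (Set.Icc 0 y) := by
        refine monotoneOn_of_deriv_nonneg (convex_Icc 0 y)
          (fun t _ => (hk_deriv t).continuousAt.continuousWithinAt)
          (fun t _ => (hk_deriv t).differentiableAt.differentiableWithinAt) ?_
        intro t ht
        rw [interior_Icc] at ht
        rw [(hk_deriv t).deriv]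
        exact mul_nonneg (Gg_pos t).le (h.trans (wp_anti ht.1.le ht.2.le hy3.le))
      have h1 := hmono ⟨le_rfl, hy⟩ ⟨hy, le_rfl⟩ hy
      have h2 : 0 ≤ hk 0 := by
        unfold hk Bk Ig
        rw [intervalIntegral.integral_same, Gg_zero]
        have := B0_bounds.1
        simp
        linarith
      exact h2.trans h1
    · have hanti : AntitoneOn hk (Set.Ici y) := by
        refine antitoneOn_of_deriv_nonpos (convex_Ici y)
          (fun t _ => (hk_deriv t).continuousAt.continuousWithinAt)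
          (fun t _ => (hk_deriv t).differentiableAt.differentiableWithinAt) ?_
        intro t ht
        rw [interior_Ici] at ht
        rw [(hk_deriv t).deriv]
        apply mul_nonpos_of_nonneg_of_nonpos (Gg_pos t).le
        rcases le_or_gt (3 / 10) t with h3 | h3
        · exact (wp_neg h3).le
        · exact (wp_anti hy (Set.mem_Ioi.1 ht).le h3.le).trans h.le
      have htend : Tendsto hk atTop (𝓝 0) := by
        have hu : Tendsto (fun x : ℝ => Real.pi * (17 / 10 * x) ^ 2) atTop atTop := by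
          apply Tendsto.const_mul_atTop Real.pi_pos
          have h3 : Tendsto (fun x : ℝ => 17 / 10 * x) atTop atTop :=
            tendsto_id.const_mul_atTop (by norm_num)
          exact (tendsto_pow_atTop two_ne_zero).comp h3
        have h1 : Tendsto Bk atTop (𝓝 0) := by
          have h4 := ((Real.tendsto_pow_mul_exp_neg_atTop_nhds_zero 0).comp hu).const_mul B0
          have h5 := ((Real.tendsto_pow_mul_exp_neg_atTop_nhds_zero 1).comp hu).const_mul
            (b1 / (Real.pi * (17 / 10) ^ 2))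
          have h6 := h4.add h5
          simp only [mul_zero, add_zero] at h6
          refine h6.congr fun x => ?_
          simp only [Function.comp]
          unfold Bk Gg
          have hpi := Real.pi_ne_zero
          field_simp
          try ring
        have h2 := (h1.add Ig_tendsto).sub_const (1 / 2)
        have h3 : (0 : ℝ) + 1 / 2 - 1 / 2 = 0 := by norm_num
        rw [h3] at h2
        exact h2
      have h1 : ∀ᶠ t in atTop, hk t ≤ hk y := by
        filter_upwards [eventually_ge_atTop y] with t ht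
        exact hanti (Set.self_mem_Ici) ht ht
      exact le_of_tendsto htend h1
  unfold hk at hmain
  linarith

end W201FW
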