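import Pool.Agent.W201.FW.Phys

/-! The test functions. -/

open Filter Topology Set MeasureTheory
open scoped BigOperators

namespace W201FW

/-- `∫_{-β}^{β} cos (2π x t) dt` -/
noncomputable def sc (β x : ℝ) : ℝ := ∫ t in (-β)..β, Real.cos (2 * Real.pi * x * t)

lemma sc_bd {β : ℝ} (hβ : 0 ≤ β) (x : ℝ) : |sc β x| ≤ 2 * β := by
  unfold sc
  have h := intervalIntegral.norm_integral_le_of_norm_le_const (C := 1) (a := -β) (b := β)
    (f := fun t => Real.cos (2 * Real.pi * x * t)) (fun t _ => Real.abs_cos_le_one _)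
  rw [Real.norm_eq_abs] at h
  have h2 : |β - -β| = 2 * β := by rw [abs_of_nonneg (by linarith)]; ring
  rw [h2] at h
  linarith

lemma sc_lip {β : ℝ} (hβ : 0 ≤ β) (x y : ℝ) :
    |sc β x - sc β y| ≤ (4 * Real.pi * β ^ 2) * |x - y| := by
  have hpi := Real.pi_pos
  unfold sc
  rw [← intervalIntegral.integral_sub
    ((by fun_prop : Continuous fun t : ℝ => Real.cos (2 * Real.pi * x * t)).intervalIntegrable _ _)
    ((by fun_prop : Continuous fun t : ℝ => Real.cos (2 * Real.pi * y * t)).intervalIntegrable _ _)]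
  have h := intervalIntegral.norm_integral_le_of_norm_le_const
    (C := 2 * Real.pi * β * |x - y|) (a := -β) (b := β)
    (f := fun t => Real.cos (2 * Real.pi * x * t) - Real.cos (2 * Real.pi * y * t))
    (fun t ht => by
      rw [Set.uIoc_of_le (by linarith)] at ht
      have h1 := Real.abs_cos_sub_cos_le (2 * Real.pi * x * t) (2 * Real.pi * y * t)
      rw [Real.norm_eq_abs]
      refine h1.trans ?_
      have e : 2 * Real.pi * x * t - 2 * Real.pi * y * t = 2 * Real.pi * t * (x - y) := by ring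
      rw [e, abs_mul, abs_mul, abs_of_pos (by positivity : (0 : ℝ) < 2 * Real.pi)]
      have h3 : |t| ≤ β := abs_le.2 ⟨ht.1.le, ht.2⟩
      gcongr)
  rw [Real.norm_eq_abs] at h
  have h2 : |β - -β| = 2 * β := by rw [abs_of_nonneg (by linarith)]; ring
  rw [h2] at h
  calc _ ≤ _ := h
    _ = _ := by ring

lemma sc_cont {β : ℝ} (hβ : 0 ≤ β) : Continuous (sc β) := by
  have hpi := Real.pi_pos
  have hK : 0 ≤ 4 * Real.pi * β ^ 2 := by positivity
  have : LipschitzWith (4 * Real.pi * β ^ 2).toNNReal (sc β) := by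
    refine LipschitzWith.of_dist_le_mul fun x y => ?_
    rw [Real.dist_eq, Real.dist_eq, Real.coe_toNNReal _ hK]
    exact sc_lip hβ x y
  exact this.continuous

lemma sc_even (β x : ℝ) : sc β (-x) = sc β x := by
  unfold sc
  refine intervalIntegral.integral_congr fun t _ => ?_
  have : 2 * Real.pi * -x * t = -(2 * Real.pi * x * t) := by ring
  show Real.cos (2 * Real.pi * -x * t) = Real.cos (2 * Real.pi * x * t)
  rw [this, Real.cos_neg]

lemma sc_zero (β : ℝ) : sc β 0 = 2 * β := by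
  unfold sc
  simp
  ring

lemma sc_mul (β x : ℝ) : x * sc β x = Real.sin (2 * Real.pi * β * x) / Real.pi := by
  have hpi := Real.pi_pos
  rcases eq_or_ne x 0 with h | h
  · subst h; simp
  unfold sc
  have hc : 2 * Real.pi * x ≠ 0 := by positivity
  rw [intervalIntegral.integral_comp_mul_left (fun t => Real.cos t) hc, integral_cos, smul_eq_mul]
  have e1 : 2 * Real.pi * x * -β = -(2 * Real.pi * β * x) := by ring
  have e2 : 2 * Real.pi * x * β = 2 * Real.pi * β * x := by ring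
  rw [e1, e2, Real.sin_neg]
  field_simp
  ring

/-- the test functions -/
noncomputable def phi (τ β x : ℝ) : ℝ :=
  τ * ((1 - 3 / 4 * x ^ 2) * Eg x * sc β x) -
    (6021 / 10000 - 3 / 100 * x ^ 2) * Eg x * Real.cos (2 * Real.pi * β * x) + Pp (x ^ 2) * Eg x

lemma phi_cont (τ : ℝ) {β : ℝ} (hβ : 0 ≤ β) : Continuous (phi τ β) := by
  unfold phi
  have h1 := Eg_cont
  have h2 := sc_cont hβ
  have h3 : Continuous fun x : ℝ => Pp (x ^ 2) := by unfold Pp; fun_prop
  exact ((continuous_const.mul (((by fun_prop : Continuous fun x : ℝ =>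
    (1 - 3 / 4 * x ^ 2)).mul h1).mul h2)).sub (((by fun_prop : Continuous fun x : ℝ =>
    (6021 / 10000 - 3 / 100 * x ^ 2)).mul h1).mul (by fun_prop))).add (h3.mul h1)

lemma phi_even (τ β x : ℝ) : phi τ β (-x) = phi τ β x := by
  unfold phi
  rw [Eg_even, sc_even, neg_sq]
  have : 2 * Real.pi * β * -x = -(2 * Real.pi * β * x) := by ring
  rw [this, Real.cos_neg]

lemma int_G : Integrable fun x : ℝ => (1 - 3 / 4 * x ^ 2) * Eg x := by
  refine ((Eg_int 0).sub ((Eg_int 2).const_mul (3 / 4))).congr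
    (Filter.Eventually.of_forall fun x => ?_)
  simp only [Pi.sub_apply]
  ring

lemma int_F : Integrable fun x : ℝ => (6021 / 10000 - 3 / 100 * x ^ 2) * Eg x := by
  refine (((Eg_int 0).const_mul (6021 / 10000)).sub ((Eg_int 2).const_mul (3 / 100))).congr
    (Filter.Eventually.of_forall fun x => ?_)
  simp only [Pi.sub_apply]
  ring

lemma int_P : Integrable fun x : ℝ => Pp (x ^ 2) * Eg x := by
  refine (((((Eg_int 0).const_mul P0).add ((Eg_int 2).const_mul P1)).add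
    ((Eg_int 4).const_mul P2)).add ((Eg_int 6).const_mul P3)).congr
    (Filter.Eventually.of_forall fun x => ?_)
  simp only [Pi.add_apply]
  unfold Pp
  ring

lemma int_1 {β : ℝ} (hβ : 0 ≤ β) : Integrable fun x : ℝ => (1 - 3 / 4 * x ^ 2) * Eg x * sc β x :=
  int_G.mul_bdd (c := 2 * β) (sc_cont hβ).aestronglyMeasurable
    (Filter.Eventually.of_forall fun x => sc_bd hβ x)

lemma int_2 (β : ℝ) : Integrable fun x : ℝ =>
    (6021 / 10000 - 3 / 100 * x ^ 2) * Eg x * Real.cos (2 * Real.pi * β * x) :=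
  int_F.mul_bdd (c := 1) (by fun_prop) (Filter.Eventually.of_forall fun x => Real.abs_cos_le_one _)

lemma phi_int (τ : ℝ) {β : ℝ} (hβ : 0 ≤ β) : Integrable (phi τ β) := by
  unfold phi
  exact (((int_1 hβ).const_mul τ).sub (int_2 β)).add int_P

lemma lipC1 {f : ℝ → ℝ} (hf : ContDiff ℝ 1 f) : ∃ K : ℝ, 0 ≤ K ∧ ∀ x ∈ Set.Icc (-1 : ℝ) 1,
    ∀ y ∈ Set.Icc (-1 : ℝ) 1, |f x - f y| ≤ K * |x - y| := by
  obtain ⟨K, hK⟩ := (isCompact_Icc (a := (-1 : ℝ)) (b := 1)).exists_bound_of_continuousOn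
    (hf.continuous_deriv le_rfl).continuousOn
  refine ⟨max K 0, le_max_right _ _, fun x hx y hy => ?_⟩
  have := (convex_Icc (-1 : ℝ) 1).norm_image_sub_le_of_norm_deriv_le
    (fun z _ => (hf.differentiable one_ne_zero).differentiableAt)
    (fun z hz => (hK z hz).trans (le_max_left K 0)) hy hx
  simpa using this

lemma Eg_smooth : ContDiff ℝ 1 Eg := by unfold Eg; fun_prop

lemma phi_lip (τ : ℝ) {β : ℝ} (hβ : 0 ≤ β) : ∃ K : ℝ, 0 ≤ K ∧ ∀ x ∈ Set.Icc (-1 : ℝ) 1,
    ∀ y ∈ Set.Icc (-1 : ℝ) 1, |phi τ β x - phi τ β y| ≤ K * |x - y| := by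
  have hE := Eg_smooth
  have hpi := Real.pi_pos
  have hG : ContDiff ℝ 1 fun x : ℝ => (1 - 3 / 4 * x ^ 2) * Eg x := by fun_prop
  have hR : ContDiff ℝ 1 fun x : ℝ =>
      -((6021 / 10000 - 3 / 100 * x ^ 2) * Eg x * Real.cos (2 * Real.pi * β * x)) +
        Pp (x ^ 2) * Eg x := by
    unfold Pp; fun_prop
  obtain ⟨K1, hK1, h1⟩ := lipC1 hG
  obtain ⟨K2, hK2, h2⟩ := lipC1 hR
  set K3 : ℝ := 4 * Real.pi * β ^ 2 with hK3
  have hK30 : 0 ≤ K3 := by positivity
  refine ⟨|τ| * (K1 * (2 * β) + (1 + K1) * K3) + K2, by positivity, fun x hx y hy => ?_⟩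
  have g1 := h1 x hx y hy
  have g2 := h2 x hx y hy
  have g3 := sc_lip hβ x y
  have g4 := sc_bd hβ x
  have g5 : |(1 - 3 / 4 * y ^ 2) * Eg y| ≤ 1 + K1 := by
    have h3 := h1 y hy 0 ⟨by norm_num, by norm_num⟩
    have h4 : |y| ≤ 1 := abs_le.2 hy
    have e0 : (1 - 3 / 4 * (0 : ℝ) ^ 2) * Eg 0 = 1 := by rw [Eg_zero]; norm_num
    rw [e0, sub_zero] at h3
    have h5 := abs_add_le ((1 - 3 / 4 * y ^ 2) * Eg y - 1) 1
    rw [sub_add_cancel, abs_one] at h5
    have h6 : K1 * |y| ≤ K1 * 1 := by gcongr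
    linarith
  have e : phi τ β x - phi τ β y = τ * (((1 - 3 / 4 * x ^ 2) * Eg x - (1 - 3 / 4 * y ^ 2) * Eg y) *
      sc β x + (1 - 3 / 4 * y ^ 2) * Eg y * (sc β x - sc β y)) +
      ((-((6021 / 10000 - 3 / 100 * x ^ 2) * Eg x * Real.cos (2 * Real.pi * β * x)) +
        Pp (x ^ 2) * Eg x) -
      (-((6021 / 10000 - 3 / 100 * y ^ 2) * Eg y * Real.cos (2 * Real.pi * β * y)) +
        Pp (y ^ 2) * Eg y)) := by
    unfold phi; ring
  rw [e]
  refine (abs_add_le _ _).trans ?_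
  have g6 : |τ * (((1 - 3 / 4 * x ^ 2) * Eg x - (1 - 3 / 4 * y ^ 2) * Eg y) *
      sc β x + (1 - 3 / 4 * y ^ 2) * Eg y * (sc β x - sc β y))| ≤
      |τ| * ((K1 * |x - y|) * (2 * β) + (1 + K1) * (K3 * |x - y|)) := by
    rw [abs_mul]
    gcongr
    refine (abs_add_le _ _).trans ?_
    rw [abs_mul, abs_mul]
    gcongr
  calc _ ≤ |τ| * ((K1 * |x - y|) * (2 * β) + (1 + K1) * (K3 * |x - y|)) + K2 * |x - y| :=
        add_le_add g6 g2
    _ = _ := by ring

/-! ### Positivity -/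

lemma lam_bounds : 21741121 / 10000000 ≤ lam ∧ lam ≤ 21741129 / 10000000 := by
  have h1 := Real.pi_gt_d6
  have h2 := Real.pi_lt_d6
  unfold lam
  constructor <;> linarith

lemma Pp_shift (η : ℝ) : Pp η = (861 / 10000 * lam ^ 2 + 611 / 10000 * lam + 392 / 10000) +
    (493 / 10000 * lam ^ 2 + 712 / 10000 * lam + 1692 / 10000) * (η - 1) +
    (-(227 / 10000) * lam ^ 2 - 1269 / 10000 * lam) * (η - 1) ^ 2 +
    (141 / 10000 * lam ^ 2) * (η - 1) ^ 3 := by
  unfold Pp P0 P1 P2 P3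
  ring

lemma co_bounds : ∃ c0 c1 c2 c3 : ℝ, 5790 / 10000 ≤ c0 ∧ 55702 / 100000 ≤ c1 ∧ c1 ≤ 558 / 1000 ∧
    -(3832 / 10000) ≤ c2 ∧ 6664 / 100000 ≤ c3 ∧ c3 ≤ 7 / 100 ∧
    ∀ η, Pp η = c0 + c1 * (η - 1) + c2 * (η - 1) ^ 2 + c3 * (η - 1) ^ 3 := by
  obtain ⟨h1, h2⟩ := lam_bounds
  have h3 : (21741121 / 10000000 : ℝ) ^ 2 ≤ lam ^ 2 := by gcongr
  have h4 : lam ^ 2 ≤ (21741129 / 10000000 : ℝ) ^ 2 := by
    have := lam_pos
    gcongr
  refine ⟨_, _, _, _, ?_, ?_, ?_, ?_, ?_, ?_, Pp_shift⟩ <;> nlinarith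

lemma amp1 {η : ℝ} (h : 999 / 1000 ≤ η) (h5 : η ≤ 5) :
    (1 - 3 / 4 * η) ^ 2 * (10133 / 100000) + (6021 / 10000 - 3 / 100 * η) ^ 2 * η ≤
      (578 / 1000 + 52 / 10000 * (η - 1)) ^ 2 * η := by
  obtain ⟨t, rfl⟩ : ∃ t, η = 1 + t := ⟨η - 1, by ring⟩
  have h1 : -(1 / 1000) ≤ t := by linarith
  have h2 : t ≤ 4 := by linarith
  have e : (578 / 1000 + 52 / 10000 * (1 + t - 1)) ^ 2 * (1 + t) -
      ((1 - 3 / 4 * (1 + t)) ^ 2 * (10133 / 100000) +
        (6021 / 10000 - 3 / 100 * (1 + t)) ^ 2 * (1 + t)) =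
      (578 ^ 2 / 1000 ^ 2 - 5721 ^ 2 / 10000 ^ 2 - 10133 / 1600000) +
      (578 ^ 2 / 1000 ^ 2 - 5721 ^ 2 / 10000 ^ 2 + 2 * 578 * 52 / 10000000 +
        2 * 5721 * 3 / 1000000 + 3 / 8 * (10133 / 100000)) * t +
      (2 * 578 * 52 / 10000000 + 2 * 5721 * 3 / 1000000 + 52 ^ 2 / 10000 ^ 2 - 9 / 10000 -
        9 / 16 * (10133 / 100000)) * t ^ 2 + (52 ^ 2 / 10000 ^ 2 - 9 / 10000) * t ^ 3 := by ring
  rcases le_or_gt 0 t with ht | ht
  · nlinarith [mul_nonneg ht (by linarith : 0 ≤ 4 - t),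
      mul_nonneg (mul_nonneg ht ht) (by linarith : 0 ≤ 4 - t)]
  · have h6 : 0 ≤ t + 1 / 1000 := by linarith
    nlinarith [mul_nonneg h6 (by linarith : 0 ≤ -t),
      mul_nonneg (mul_nonneg h6 (by linarith : 0 ≤ -t)) (by linarith : 0 ≤ -t)]

lemma amp2 {η : ℝ} (h5 : 5 ≤ η) :
    (1 - 3 / 4 * η) ^ 2 * (10133 / 100000) + (6021 / 10000 - 3 / 100 * η) ^ 2 * η ≤
      (578 / 1000 + 3 / 100 * (η - 1)) ^ 2 * η := by
  obtain ⟨t, rfl⟩ : ∃ t, η = 5 + t := ⟨η - 5, by ring⟩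
  have h1 : 0 ≤ t := by linarith
  nlinarith [mul_nonneg h1 h1]

lemma pp1 {η : ℝ} (h : 999 / 1000 ≤ η) (h5 : η ≤ 5) :
    578 / 1000 + 52 / 10000 * (η - 1) ≤ Pp η := by
  obtain ⟨c0, c1, c2, c3, a0, a1, a1', a2, a3, a3', e⟩ := co_bounds
  rw [e]
  obtain ⟨t, rfl⟩ : ∃ t, η = 1 + t := ⟨η - 1, by ring⟩
  have h1 : -(1 / 1000) ≤ t := by linarith
  have h2 : t ≤ 4 := by linarith
  have e1 : 1 + t - 1 = t := by ring
  rw [e1]
  rcases le_or_gt 0 t with ht | ht
  · have g1 : 55702 / 100000 * t ≤ c1 * t := by gcongr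
    have g2 : -(3832 / 10000) * t ^ 2 ≤ c2 * t ^ 2 := by gcongr
    have g3 : 6664 / 100000 * t ^ 3 ≤ c3 * t ^ 3 := by gcongr
    nlinarith [mul_nonneg ht (sq_nonneg (t - 2875 / 1000))]
  · have g1 : c1 * (-t) ≤ 558 / 1000 * (1 / 1000) := by
      apply mul_le_mul a1' (by linarith) (by linarith) (by norm_num)
    have ht2 : t ^ 2 ≤ 1 / 1000000 := by nlinarith
    have g2 : -(3832 / 10000) * t ^ 2 ≤ c2 * t ^ 2 := by gcongr
    have g3 : c3 * (-t) ^ 3 ≤ 7 / 100 * (1 / 1000) ^ 3 := by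
      apply mul_le_mul a3' _ (by have : 0 ≤ -t := by linarith
                                 positivity) (by norm_num)
      gcongr
      linarith
      linarith
    have e3 : (-t) ^ 3 = -t ^ 3 := by ring
    rw [e3] at g3
    nlinarith

lemma pp2 {η : ℝ} (h5 : 5 ≤ η) : 578 / 1000 + 3 / 100 * (η - 1) ≤ Pp η := by
  obtain ⟨c0, c1, c2, c3, a0, a1, a1', a2, a3, a3', e⟩ := co_bounds
  rw [e]
  obtain ⟨t, rfl⟩ : ∃ t, η = 5 + t := ⟨η - 5, by ring⟩
  have ht : 0 ≤ t := by linarith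
  have e1 : 5 + t - 1 = t + 4 := by ring
  rw [e1]
  have g1 : 55702 / 100000 * (t + 4) ≤ c1 * (t + 4) := by gcongr
  have g2 : -(3832 / 10000) * (t + 4) ^ 2 ≤ c2 * (t + 4) ^ 2 := by gcongr
  have g3 : 6664 / 100000 * (t + 4) ^ 3 ≤ c3 * (t + 4) ^ 3 := by gcongr
  have : 0 ≤ t ^ 2 := sq_nonneg t
  have : 0 ≤ t ^ 3 := by positivity
  nlinarith

/-- positivity at the frequencies at least `1999/2000` -/
lemma phi_nonneg {τ : ℝ} (hτ : τ ^ 2 = 1) (β : ℝ) {x : ℝ} (hx : 1999 / 2000 ≤ x) :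
    0 ≤ phi τ β x := by
  have hpi := Real.pi_pos
  have hx0 : 0 < x := by linarith
  set η : ℝ := x ^ 2 with hη
  have hη1 : 999 / 1000 ≤ η := by rw [hη]; nlinarith
  have hη0 : 0 < η := by linarith
  set s := Real.sin (2 * Real.pi * β * x) with hs
  set c := Real.cos (2 * Real.pi * β * x) with hc
  have hsc : s ^ 2 + c ^ 2 = 1 := Real.sin_sq_add_cos_sq _
  set A : ℝ := (1 - 3 / 4 * η) / (Real.pi * x) with hA
  set B : ℝ := 6021 / 10000 - 3 / 100 * η with hB
  have hscx : sc β x = s / (Real.pi * x) := by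
    have h := sc_mul β x
    rw [eq_div_iff (by positivity)]
    rw [eq_div_iff (by positivity)] at h
    rw [hs, ← h]
    ring
  have e : phi τ β x = Eg x * ((τ * A * s - B * c) + Pp η) := by
    unfold phi
    rw [hscx, hA, hB]
    ring
  rw [e]
  apply mul_nonneg (Eg_pos x).le
  have hid : (τ * A * s - B * c) ^ 2 + (τ * A * c + B * s) ^ 2 = A ^ 2 + B ^ 2 := by
    have : (τ * A * s - B * c) ^ 2 + (τ * A * c + B * s) ^ 2 =
        (τ ^ 2 * A ^ 2 + B ^ 2) * (s ^ 2 + c ^ 2) := by ring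
    rw [this, hsc, hτ]
    ring
  have hA2 : A ^ 2 * η ≤ (1 - 3 / 4 * η) ^ 2 * (10133 / 100000) := by
    have h1 : A ^ 2 * η = (1 - 3 / 4 * η) ^ 2 * (1 / Real.pi ^ 2) := by
      rw [hA, hη]
      field_simp
    rw [h1]
    have h2 : 1 / Real.pi ^ 2 ≤ 10133 / 100000 := by
      rw [div_le_iff₀ (by positivity)]
      have := Real.pi_gt_d4
      nlinarith
    gcongr
  have key : ∀ l : ℝ, 0 ≤ l → l ≤ Pp η →
      (1 - 3 / 4 * η) ^ 2 * (10133 / 100000) + (6021 / 10000 - 3 / 100 * η) ^ 2 * η ≤ l ^ 2 * η →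
      0 ≤ (τ * A * s - B * c) + Pp η := by
    intro l hl h1 h2
    have h3 : (A ^ 2 + B ^ 2) * η ≤ l ^ 2 * η := by
      rw [hB]
      calc _ = A ^ 2 * η + (6021 / 10000 - 3 / 100 * η) ^ 2 * η := by ring
        _ ≤ _ := by linarith
    have h4 : A ^ 2 + B ^ 2 ≤ l ^ 2 := le_of_mul_le_mul_right h3 hη0
    have h5 : (τ * A * s - B * c) ^ 2 ≤ l ^ 2 := by
      have := sq_nonneg (τ * A * c + B * s)
      linarith
    have h6 := (abs_le_of_sq_le_sq' h5 hl).1
    linarith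
  rcases le_or_gt η 5 with h5 | h5
  · exact key _ (by linarith) (pp1 hη1 h5) (amp1 hη1 h5)
  · exact key _ (by linarith) (pp2 h5.le) (amp2 h5.le)

/-! ### The transforms -/

lemma prod_cos (β x y : ℝ) : sc β y * Real.cos (2 * Real.pi * y * x) =
    ∫ s in (x - β)..(x + β), Real.cos (2 * Real.pi * y * s) := by
  have h1 : ∫ s in (x - β)..(x + β), Real.cos (2 * Real.pi * y * s) =
      ∫ t in (-β)..β, Real.cos (2 * Real.pi * y * (t + x)) := by
    rw [intervalIntegral.integral_comp_add_right (fun s => Real.cos (2 * Real.pi * y * s))]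
    congr 1 <;> ring
  have h2 : ∀ t : ℝ, Real.cos (2 * Real.pi * y * (t + x)) =
      Real.cos (2 * Real.pi * y * t) * Real.cos (2 * Real.pi * y * x) -
        Real.sin (2 * Real.pi * y * t) * Real.sin (2 * Real.pi * y * x) := by
    intro t
    rw [mul_add, Real.cos_add]
  have h3 : ∫ t in (-β)..β, Real.sin (2 * Real.pi * y * t) = 0 := by
    have h4 := intervalIntegral.integral_comp_neg (a := -β) (b := β)
      (fun t => Real.sin (2 * Real.pi * y * t))
    rw [neg_neg] at h4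
    have h5 : ∫ t in (-β)..β, Real.sin (2 * Real.pi * y * -t) =
        -∫ t in (-β)..β, Real.sin (2 * Real.pi * y * t) := by
      rw [← intervalIntegral.integral_neg]
      refine intervalIntegral.integral_congr fun t _ => ?_
      show Real.sin (2 * Real.pi * y * -t) = -Real.sin (2 * Real.pi * y * t)
      rw [mul_neg, Real.sin_neg]
    linarith
  rw [h1]
  simp_rw [h2]
  rw [intervalIntegral.integral_sub
    ((by fun_prop : Continuous fun t : ℝ => Real.cos (2 * Real.pi * y * t) *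
      Real.cos (2 * Real.pi * y * x)).intervalIntegrable _ _)
    ((by fun_prop : Continuous fun t : ℝ => Real.sin (2 * Real.pi * y * t) *
      Real.sin (2 * Real.pi * y * x)).intervalIntegrable _ _),
    intervalIntegral.integral_mul_const, intervalIntegral.integral_mul_const, h3, zero_mul,
    sub_zero]
  rfl

lemma tr_edge (β x : ℝ) : ∫ y : ℝ, (1 - 3 / 4 * y ^ 2) * Eg y * sc β y *
    Real.cos (2 * Real.pi * y * x) = Ig (x + β) - Ig (x - β) := by
  have e : ∀ y : ℝ, (1 - 3 / 4 * y ^ 2) * Eg y * sc β y * Real.cos (2 * Real.pi * y * x) =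
      ∫ s in (x - β)..(x + β), (1 - 3 / 4 * y ^ 2) * Eg y * Real.cos (2 * Real.pi * y * s) := by
    intro y
    rw [mul_assoc, prod_cos, intervalIntegral.integral_const_mul]
  simp_rw [e]
  haveI : IsFiniteMeasure (volume.restrict (Set.uIoc (x - β) (x + β))) := by
    rw [Set.uIoc]
    infer_instance
  have hint : Integrable (Function.uncurry fun s y : ℝ =>
      (1 - 3 / 4 * y ^ 2) * Eg y * Real.cos (2 * Real.pi * y * s))
      ((volume.restrict (Set.uIoc (x - β) (x + β))).prod volume) := by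
    have h1 := int_G.comp_snd (volume.restrict (Set.uIoc (x - β) (x + β)))
    refine h1.mul_bdd (c := 1) ?_ (Filter.Eventually.of_forall fun p => Real.abs_cos_le_one _)
    exact (by fun_prop : Continuous fun p : ℝ × ℝ =>
      Real.cos (2 * Real.pi * p.2 * p.1)).aestronglyMeasurable
  rw [← intervalIntegral_integral_swap hint]
  have h2 : ∀ s : ℝ, ∫ y : ℝ, (1 - 3 / 4 * y ^ 2) * Eg y * Real.cos (2 * Real.pi * y * s) = gk s :=
    tr_g
  simp_rw [h2]
  unfold Ig
  rw [intervalIntegral.integral_interval_sub_left (gk_cont.intervalIntegrable _ _)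
      (gk_cont.intervalIntegrable _ _)]

lemma tr_bump (β x : ℝ) : ∫ y : ℝ, (6021 / 10000 - 3 / 100 * y ^ 2) * Eg y *
    Real.cos (2 * Real.pi * β * y) * Real.cos (2 * Real.pi * y * x) = Bk (x + β) + Bk (x - β) := by
  have e : ∀ y : ℝ, (6021 / 10000 - 3 / 100 * y ^ 2) * Eg y *
      Real.cos (2 * Real.pi * β * y) * Real.cos (2 * Real.pi * y * x) =
      1 / 2 * ((6021 / 10000 - 3 / 100 * y ^ 2) * Eg y * Real.cos (2 * Real.pi * y * (x + β))) +
      1 / 2 * ((6021 / 10000 - 3 / 100 * y ^ 2) * Eg y * Real.cos (2 * Real.pi * y * (x - β))) := by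
    intro y
    have e1 : 2 * Real.pi * y * (x + β) = 2 * Real.pi * y * x + 2 * Real.pi * β * y := by ring
    have e2 : 2 * Real.pi * y * (x - β) = 2 * Real.pi * y * x - 2 * Real.pi * β * y := by ring
    rw [e1, e2, Real.cos_add, Real.cos_sub]
    ring
  have hi : ∀ z : ℝ, Integrable fun y : ℝ => (6021 / 10000 - 3 / 100 * y ^ 2) * Eg y *
      Real.cos (2 * Real.pi * y * z) := fun z =>
    int_F.mul_bdd (c := 1) (by fun_prop)
      (Filter.Eventually.of_forall fun x => Real.abs_cos_le_one _)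
  simp_rw [e]
  rw [integral_add ((hi _).const_mul _) ((hi _).const_mul _), integral_const_mul,
    integral_const_mul, tr_B, tr_B]
  ring

lemma tr_phi (τ : ℝ) {β : ℝ} (hβ : 0 ≤ β) (x : ℝ) :
    ∫ y : ℝ, phi τ β y * Real.cos (2 * Real.pi * y * x) =
      τ * (Ig (x + β) - Ig (x - β)) - (Bk (x + β) + Bk (x - β)) +
        ∫ y : ℝ, Pp (y ^ 2) * Eg y * Real.cos (2 * Real.pi * y * x) := by
  have hb : ∀ f : ℝ → ℝ, Integrable f →
      Integrable fun y : ℝ => f y * Real.cos (2 * Real.pi * y * x) := fun f hf =>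
    hf.mul_bdd (c := 1) (by fun_prop)
      (Filter.Eventually.of_forall fun x => Real.abs_cos_le_one _)
  have h1 := hb _ (int_1 hβ)
  have h2 := hb _ (int_2 β)
  have h3 := hb _ int_P
  have e : ∀ y : ℝ, phi τ β y * Real.cos (2 * Real.pi * y * x) =
      (τ * ((1 - 3 / 4 * y ^ 2) * Eg y * sc β y * Real.cos (2 * Real.pi * y * x)) -
      (6021 / 10000 - 3 / 100 * y ^ 2) * Eg y *
      Real.cos (2 * Real.pi * β * y) * Real.cos (2 * Real.pi * y * x)) +
      Pp (y ^ 2) * Eg y * Real.cos (2 * Real.pi * y * x) := by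
    intro y; unfold phi; ring
  simp_rw [e]
  have h4 : Integrable fun y : ℝ =>
      τ * ((1 - 3 / 4 * y ^ 2) * Eg y * sc β y * Real.cos (2 * Real.pi * y * x)) -
      (6021 / 10000 - 3 / 100 * y ^ 2) * Eg y *
      Real.cos (2 * Real.pi * β * y) * Real.cos (2 * Real.pi * y * x) := (h1.const_mul τ).sub h2
  rw [integral_add h4 h3, integral_sub (h1.const_mul τ) h2,
    integral_const_mul, tr_edge, tr_bump]

/-- the lower test function is below the indicator of the window -/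
lemma tr_lower {β : ℝ} (hβ : 0 ≤ β) (x : ℝ) :
    ∫ y : ℝ, phi 1 β y * Real.cos (2 * Real.pi * y * x) ≤ if |x| ≤ β then 1 else 0 := by
  rw [tr_phi 1 hβ]
  have h1 := trP x
  have b1 := Bk_pos (x + β)
  have b2 := Bk_pos (x - β)
  split_ifs with h
  · have h2 := Ig_le (x + β)
    have h3 := Ig_le (-(x - β))
    rw [Ig_odd] at h3
    linarith
  · push Not at h
    rcases le_or_gt 0 x with hx | hx
    · rw [abs_of_nonneg hx] at h
      have h2 := Ig_le (x + β)
      have h3 := key_ineq (y := x - β) (by linarith)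
      linarith
    · rw [abs_of_neg hx] at h
      have h2 := Ig_le (-(x - β))
      have h3 := key_ineq (y := -(x + β)) (by linarith)
      rw [Ig_odd] at h2 h3
      rw [Bk_even] at h3
      linarith

/-- the upper test function is below minus the indicator of the window -/
lemma tr_upper {β : ℝ} (hβ : 0 ≤ β) (x : ℝ) :
    ∫ y : ℝ, phi (-1) β y * Real.cos (2 * Real.pi * y * x) ≤ -(if |x| ≤ β then 1 else 0) := by
  rw [tr_phi (-1) hβ]
  have h1 := trP x
  have b1 := Bk_pos (x + β)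
  have b2 := Bk_pos (x - β)
  split_ifs with h
  · obtain ⟨h4, h5⟩ := abs_le.1 h
    have h2 := key_ineq (y := x + β) (by linarith)
    have h3 := key_ineq (y := -(x - β)) (by linarith)
    rw [Ig_odd, Bk_even] at h3
    linarith
  · have h2 : Ig (x - β) ≤ Ig (x + β) := Ig_mono (by linarith)
    linarith

end W201FW
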